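import Pool.Agent.PLX.Ns
import Pool.Agent.PLX.NUSea.H0.RegT
import Pool.Agent.PB.MFh
import Pool.Agent.NUH0.DatO
import Pool.Agent.NUO.InstG

/-!
# Sources: densities, potentials, remainders (no sea)

The parts of `IST/Src`, `IST/EnS`, `IST/CrS` which do not see the sea:

* `DnS`, `SrcOk`, `srcP`, `RemOk`, `RemD`;
* `lgp_sym`, `lgp_add`, `lgp_dec`, `srcEn`, `loc_le`, `tauC_lgp`.
-/

set_option autoImplicit false
set_option linter.unusedSectionVars false

noncomputable section

open MeasureTheory Finset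
open scoped ENNReal

namespace NUSea.PLX.H0

open NUMF NUO NUStabP NUDispW NUEnW
open NUR2 (Cfg)
open NUH0 (plt plt_nonneg qc T0i T0i_ge shF shF_nonneg)

/-! ### the kernel `log g` -/

theorem logg_lip (t s : ℝ) : |Real.log (g t) - Real.log (g s)| ≤ 9 * |t - s| := by
  have h := Convex.norm_image_sub_le_of_norm_hasDerivWithin_le (f := fun u => Real.log (g u))
    (f' := Pool.Agent.PB.Kg) (s := Set.univ) (C := 9) (x := s) (y := t)
    (fun x _ => (Pool.Agent.PB.hasDerivAt_log_g x).hasDerivWithinAt)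
    (fun x _ => by
      rw [Real.norm_eq_abs]
      exact PB.abs_Kg_le x) convex_univ (Set.mem_univ _) (Set.mem_univ _)
  simpa only [Real.norm_eq_abs] using h

/-- densities of size `s` -/
structure DnS (s : ℝ) (f : ℝ → ℝ) : Prop where
  s0 : 0 ≤ s
  c : Continuous f
  b : ∀ t, |f t| ≤ s * Real.exp (-(5 / 2 * |t|))

namespace DnS

variable {s : ℝ} {f : ℝ → ℝ} (h : DnS s f)

include h

lemma dn : NUC43.Dn f := ⟨h.c, s, h.s0, fun t => (h.b t).trans_eq (by rw [neg_mul])⟩

lemma int : Integrable f := h.dn.int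

lemma le (t : ℝ) : |f t| ≤ s := by
  refine (h.b t).trans ?_
  have h1 : Real.exp (-(5 / 2 * |t|)) ≤ 1 := Real.exp_le_one_iff.2 (by
    have := abs_nonneg t
    linarith)
  have := mul_le_mul_of_nonneg_left h1 h.s0
  linarith

lemma abs_le : ∫ t, |f t| ≤ 4 / 5 * s := by
  have h1 : Integrable fun t : ℝ => Real.exp (-(5 / 2 * |t|)) :=
    (NUDispW.integrable_exp_abs (by norm_num : (0 : ℝ) < 5 / 2))
  have h2 : ∫ t : ℝ, Real.exp (-(5 / 2 * |t|)) = 4 / 5 := by
    have h3 := (NUDispW.int_exp_abs (by norm_num : (0 : ℝ) < 5 / 2) 0).2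
    simp only [sub_zero] at h3
    rw [h3]
    norm_num
  calc ∫ t, |f t| ≤ ∫ t : ℝ, s * Real.exp (-(5 / 2 * |t|)) :=
        integral_mono h.int.abs (h1.const_mul s) h.b
    _ = 4 / 5 * s := by rw [integral_const_mul, h2]; ring

lemma wabs : Integrable (fun t => |t| * |f t|) ∧ ∫ t, |t| * |f t| ≤ 4 / 3 * s := by
  have h1 : Integrable fun t : ℝ => Real.exp (-(3 / 2 * |t|)) :=
    (NUDispW.integrable_exp_abs (by norm_num : (0 : ℝ) < 3 / 2))
  have h2 : ∫ t : ℝ, Real.exp (-(3 / 2 * |t|)) = 4 / 3 := by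
    have h3 := (NUDispW.int_exp_abs (by norm_num : (0 : ℝ) < 3 / 2) 0).2
    simp only [sub_zero] at h3
    rw [h3]
    norm_num
  have hp : ∀ t, |t| * |f t| ≤ s * Real.exp (-(3 / 2 * |t|)) := by
    intro t
    have h3 : |t| ≤ Real.exp |t| := by linarith [Real.add_one_le_exp |t|]
    calc |t| * |f t| ≤ Real.exp |t| * (s * Real.exp (-(5 / 2 * |t|))) := by
          have := h.b t
          have := abs_nonneg t
          have := h.s0
          gcongr
      _ = s * (Real.exp |t| * Real.exp (-(5 / 2 * |t|))) := by ring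
      _ = _ := by
        rw [← Real.exp_add]
        congr 2
        ring
  have hc := h.c
  have h4 : Integrable fun t => |t| * |f t| := (h1.const_mul s).mono'
    (Continuous.aestronglyMeasurable (by fun_prop)) (ae_of_all _ fun t => by
      rw [Real.norm_eq_abs, abs_of_nonneg (by positivity)]
      exact hp t)
  refine ⟨h4, ?_⟩
  calc ∫ t, |t| * |f t| ≤ ∫ t : ℝ, s * Real.exp (-(3 / 2 * |t|)) :=
        integral_mono h4 (h1.const_mul s) hp
    _ = 4 / 3 * s := by rw [integral_const_mul, h2]; ring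

lemma mul_id : Integrable fun x => f x * x := by
  have h1 := h.wabs.1
  have hc := h.c
  refine h1.mono' (Continuous.aestronglyMeasurable (by fun_prop)) (ae_of_all _ fun t => ?_)
  rw [Real.norm_eq_abs, abs_mul, mul_comm]

lemma lg_in (t : ℝ) : Integrable fun u => f u * Real.log (g (t - u)) := NUC43.lg_in h.dn t

/-- the potential of a density is Lipschitz -/
theorem lgp_lip (t t' : ℝ) : |NUC43.lgp f t - NUC43.lgp f t'| ≤ 8 * s * |t - t'| := by
  unfold NUC43.lgp
  rw [← integral_sub (h.lg_in t) (h.lg_in t')]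
  have h1 : ∀ u, |f u * Real.log (g (t - u)) - f u * Real.log (g (t' - u))| ≤
      (9 * |t - t'|) * |f u| := by
    intro u
    rw [← mul_sub, abs_mul]
    have h2 := logg_lip (t - u) (t' - u)
    rw [show t - u - (t' - u) = t - t' by ring] at h2
    rw [mul_comm]
    exact mul_le_mul_of_nonneg_right h2 (abs_nonneg _)
  calc |∫ u, (f u * Real.log (g (t - u)) - f u * Real.log (g (t' - u)))| ≤
      ∫ u, |f u * Real.log (g (t - u)) - f u * Real.log (g (t' - u))| :=
        abs_integral_le_integral_abs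
    _ ≤ ∫ u, (9 * |t - t'|) * |f u| :=
        integral_mono ((h.lg_in t).sub (h.lg_in t')).abs (h.int.abs.const_mul _) h1
    _ = 9 * |t - t'| * ∫ u, |f u| := integral_const_mul _ _
    _ ≤ 9 * |t - t'| * (4 / 5 * s) := mul_le_mul_of_nonneg_left h.abs_le (by positivity)
    _ ≤ 8 * s * |t - t'| := by
        have := mul_nonneg h.s0 (abs_nonneg (t - t'))
        linarith

theorem lgp_cont : Continuous (NUC43.lgp f) := by
  refine (LipschitzWith.of_dist_le' (K := 8 * s) fun t t' => ?_).continuous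
  rw [Real.dist_eq, Real.dist_eq]
  exact h.lgp_lip t t'

/-- the potential of a neutral density is bounded -/
theorem lgp_le (h0 : ∫ t, f t = 0) (t : ℝ) : |NUC43.lgp f t| ≤ 12 * s := by
  have e : NUC43.lgp f t = ∫ u, f u * (Real.log (g (t - u)) - Real.log (g t)) := by
    unfold NUC43.lgp
    simp_rw [mul_sub]
    rw [integral_sub (h.lg_in t) (h.int.mul_const _), integral_mul_const, h0]
    ring
  have h1 : ∀ u, |f u * (Real.log (g (t - u)) - Real.log (g t))| ≤ 9 * (|u| * |f u|) := by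
    intro u
    rw [abs_mul]
    have h2 := logg_lip (t - u) t
    rw [show t - u - t = -u by ring, abs_neg] at h2
    calc |f u| * |Real.log (g (t - u)) - Real.log (g t)| ≤ |f u| * (9 * |u|) := by gcongr
      _ = _ := by ring
  have hi : Integrable fun u => f u * (Real.log (g (t - u)) - Real.log (g t)) := by
    simp_rw [mul_sub]
    exact (h.lg_in t).sub (h.int.mul_const _)
  obtain ⟨w1, w2⟩ := h.wabs
  rw [e]
  calc |∫ u, f u * (Real.log (g (t - u)) - Real.log (g t))| ≤
      ∫ u, |f u * (Real.log (g (t - u)) - Real.log (g t))| := abs_integral_le_integral_abs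
    _ ≤ ∫ u, 9 * (|u| * |f u|) := integral_mono hi.abs (w1.const_mul 9) h1
    _ = 9 * ∫ u, |u| * |f u| := integral_const_mul _ _
    _ ≤ 12 * s := by linarith

lemma V_in (t : ℝ) : Integrable fun u => f u * V (t - u) := NUC43.V_in h.dn t

lemma Vf_bc : Continuous (fun t => ∫ u, f u * V (t - u)) ∧
    ∀ t, |∫ u, f u * V (t - u)| ≤ s * ∫ u, |V u| := by
  simp_rw [NUC43.V_cv]
  refine ⟨NUC37.cv_cont V_integral.1 h.c h.le, fun t => ?_⟩
  rw [mul_comm]
  exact NUC37.cv_bound V_integral.1 h.le t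

end DnS

/-- **a source of size `s`** -/
structure SrcOk (s : ℝ) (ν : Bool → ℝ → ℝ) (τ : ℝ → ℝ) : Prop where
  dν : ∀ a, DnS s (ν a)
  dτ : DnS s τ
  τ0 : ∫ t, τ t = 0

/-- the potential of a source on the species `a` -/
def srcP (ν : Bool → ℝ → ℝ) (τ : ℝ → ℝ) (a : Bool) (t : ℝ) : ℝ :=
  (∫ u, ν a u * V (t - u)) + Dat.sg a * NUC43.lgp τ t

/-- **a remainder**: size `s`, energy `E` -/
structure RemOk (s E : ℝ) (ψ : Bool → ℝ → ℝ) : Prop where
  c : ∀ a, ContDiff ℝ 1 (ψ a)
  b : ∀ a t, |ψ a t| ≤ s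
  e : ∀ a T, 0 ≤ T → ∫ t in (-(T + 1))..(T + 1), (ψ a t ^ 2 + deriv (ψ a) t ^ 2) ≤ E

lemma abs_sg (a : Bool) : |Dat.sg a| = 1 := by
  cases a <;> simp [Dat.sg]

namespace SrcOk

variable {s : ℝ} {ν : Bool → ℝ → ℝ} {τ : ℝ → ℝ} (h : SrcOk s ν τ)

include h

lemma s0 : 0 ≤ s := h.dτ.s0

lemma cont (a : Bool) : Continuous (srcP ν τ a) :=
  (h.dν a).Vf_bc.1.add (h.dτ.lgp_cont.const_mul _)

/-- the potential is bounded by its size -/
theorem le (a : Bool) (t : ℝ) : |srcP ν τ a t| ≤ (12 + ∫ u, |V u|) * s := by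
  have h1 := (h.dν a).Vf_bc.2 t
  have h2 := h.dτ.lgp_le h.τ0 t
  unfold srcP
  refine (abs_add_le _ _).trans ?_
  rw [abs_mul, abs_sg, one_mul]
  linarith

end SrcOk

/-! ### symmetry -/

/-- integrable with first moment -/
structure Wt (f : ℝ → ℝ) : Prop where
  i : Integrable f
  x : Integrable fun t => f t * t

lemma DnS.wt {s : ℝ} {f : ℝ → ℝ} (h : DnS s f) : Wt f := ⟨h.int, h.mul_id⟩

lemma Wt.w {f : ℝ → ℝ} (h : Wt f) : Integrable fun t => (1 + |t|) * f t := by
  have h1 : Integrable fun t => |t| * f t := by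
    have h2 : AEStronglyMeasurable (fun t : ℝ => |t| * f t) :=
      (continuous_abs.aestronglyMeasurable).mul h.i.aestronglyMeasurable
    refine h.x.norm.mono' h2 (ae_of_all _ fun t => ?_)
    rw [norm_mul, norm_mul, Real.norm_eq_abs |t|, abs_abs, Real.norm_eq_abs t, mul_comm]
  refine (h.i.add h1).congr (ae_of_all _ fun t => ?_)
  simp only [Pi.add_apply]
  ring

/-- joint integrability -/
lemma joint_logg {f f' : ℝ → ℝ} (h : Wt f) (h' : Wt f') :
    Integrable (fun z : ℝ × ℝ => f z.1 * (f' z.2 * Real.log (g (z.1 - z.2))))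
      ((volume : Measure ℝ).prod volume) := by
  have h1 := Pool.Agent.NUM3.joint_lg (τ₁ := fun t => f (-t)) (τ₂ := f') h.i.comp_neg h'.i
    (by
      have := h.w.comp_neg
      simp only [abs_neg] at this
      exact this) h'.w 0 0
  have h2 : Integrable (fun z : ℝ × ℝ => f z.1 * f' z.2) ((volume : Measure ℝ).prod volume) :=
    h.i.mul_prod h'.i
  refine ((h2.mul_const (Real.log (g 0))).sub h1).congr (ae_of_all _ fun z => ?_)
  simp only [Pi.sub_apply, sub_zero, zero_sub, neg_neg]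
  unfold NUE.lgm
  ring

lemma lgp_out {f f' : ℝ → ℝ} (h : Wt f) (h' : Wt f') : Integrable fun t => f t * NUC43.lgp f' t := by
  have h1 := (joint_logg h h').integral_prod_left
  simp only [integral_const_mul] at h1
  exact h1

lemma int4 {f1 f2 f3 f4 : ℝ → ℝ} (h1 : Integrable f1) (h2 : Integrable f2) (h3 : Integrable f3)
    (h4 : Integrable f4) : ∫ t, (f1 t + f2 t + (f3 t + f4 t)) =
      (∫ t, f1 t) + (∫ t, f2 t) + ((∫ t, f3 t) + ∫ t, f4 t) := by
  have e : (fun t => f1 t + f2 t + (f3 t + f4 t)) = (f1 + f2) + (f3 + f4) := rfl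
  rw [e, integral_add' (h1.add h2) (h3.add h4), integral_add' h1 h2, integral_add' h3 h4]

lemma int3 {f1 f2 f3 : ℝ → ℝ} (h1 : Integrable f1) (h2 : Integrable f2) (h3 : Integrable f3) :
    ∫ t, (f1 t + f2 t + f3 t) = (∫ t, f1 t) + (∫ t, f2 t) + ∫ t, f3 t := by
  have e : (fun t => f1 t + f2 t + f3 t) = (f1 + f2) + f3 := rfl
  rw [e, integral_add' (h1.add h2) h3, integral_add' h1 h2]

/-- symmetry of the energy of the splitting -/
theorem lgp_sym {f f' : ℝ → ℝ} (h : Wt f) (h' : Wt f') :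
    ∫ t, f t * NUC43.lgp f' t = ∫ t, f' t * NUC43.lgp f t := by
  have h1 := integral_integral_swap (f := fun t u => f t * (f' u * Real.log (g (t - u))))
    (joint_logg h h')
  have e1 : ∫ t, f t * NUC43.lgp f' t = ∫ t, ∫ u, f t * (f' u * Real.log (g (t - u))) := by
    refine integral_congr_ae (ae_of_all _ fun t => ?_)
    simp only
    rw [integral_const_mul]
    rfl
  rw [e1, h1]
  refine integral_congr_ae (ae_of_all _ fun u => ?_)
  simp only
  unfold NUC43.lgp
  rw [← integral_const_mul]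
  refine integral_congr_ae (ae_of_all _ fun t => ?_)
  simp only
  rw [show t - u = -(u - t) by ring, NUE.g_even]
  ring

lemma lgp_add {f f' : ℝ → ℝ} (h : Wt f) (h' : Wt f') (t : ℝ) :
    NUC43.lgp (fun u => f u + f' u) t = NUC43.lgp f t + NUC43.lgp f' t := by
  have hi : ∀ {f : ℝ → ℝ}, Wt f → Integrable fun u => f u * Real.log (g (t - u)) := by
    intro f h
    have h1 := (h.i.mul_const (Real.log (g 0)))
    have h2 : Integrable fun u => f u * NUE.lgm (t - u) := by
      have hl := NUE.lgm_cont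
      refine ((h.w.abs).const_mul (2 * (1 + |t|))).mono'
        (h.i.aestronglyMeasurable.mul (Continuous.aestronglyMeasurable (by fun_prop)))
        (ae_of_all _ fun u => ?_)
      rw [Real.norm_eq_abs, abs_mul, abs_mul, abs_of_nonneg (by positivity : 0 ≤ 1 + |u|)]
      have h1 := NUC43.lgm_abs (t - u)
      have h2 : |t - u| ≤ |t| + |u| := abs_sub t u
      have a := abs_nonneg t
      have b := abs_nonneg u
      have c := abs_nonneg (f u)
      have h3 : |NUE.lgm (t - u)| ≤ 2 * (1 + |t|) * (1 + |u|) := by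
        nlinarith only [h1, h2, mul_nonneg a b]
      calc |f u| * |NUE.lgm (t - u)| ≤ |f u| * (2 * (1 + |t|) * (1 + |u|)) := by gcongr
        _ = _ := by ring
    refine (h1.sub h2).congr (ae_of_all _ fun u => ?_)
    simp only [Pi.sub_apply]
    unfold NUE.lgm
    ring
  unfold NUC43.lgp
  rw [← integral_add (hi h) (hi h')]
  refine integral_congr_ae (ae_of_all _ fun u => ?_)
  simp only
  ring

/-! ### the potential of a neutral density far away -/

/-- `log g t + 2 t` -/
def Lg (t : ℝ) : ℝ := Real.log (g t) + 2 * t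

lemma Kg_two (x : ℝ) : |Pool.Agent.PB.Kg x + 2| ≤ 24 * Real.exp (-(2 * x)) := by
  rcases le_or_gt 0 x with hx | hx
  · have hr0 : 0 < r := r_pos
    have hr1 : r ≤ 1 := by
      rw [r_eq]
      exact Real.cos_le_one _
    have key : ∀ c : ℝ, 0 < c → c ≤ 1 →
        |Real.sinh (2 * x) / (Real.cosh (2 * x) + c) - 1| ≤ 4 * Real.exp (-(2 * x)) := by
      intro c hc hc1
      have h1 := Real.one_le_cosh (2 * x)
      have h2 : Real.cosh (2 * x) - Real.sinh (2 * x) = Real.exp (-(2 * x)) :=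
        Real.cosh_sub_sinh (2 * x)
      have h3 : Real.exp (2 * x) ≤ 2 * Real.cosh (2 * x) := by
        rw [Real.cosh_eq]
        have := Real.exp_pos (-(2 * x))
        linarith
      have h4 : Real.exp (-(2 * x)) * Real.exp (2 * x) = 1 := by
        rw [← Real.exp_add]
        simp
      have h5 := Real.exp_pos (-(2 * x))
      have h6 : 0 < Real.cosh (2 * x) + c := by linarith
      have e1 : Real.sinh (2 * x) / (Real.cosh (2 * x) + c) - 1 =
          -((Real.exp (-(2 * x)) + c) / (Real.cosh (2 * x) + c)) := by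
        rw [← h2]
        field_simp
        ring
      rw [e1, abs_neg, abs_of_nonneg (by positivity), div_le_iff₀ h6]
      have h7 : Real.exp (-(2 * x)) ≤ 1 := Real.exp_le_one_iff.2 (by linarith)
      have h8 : 1 ≤ Real.exp (-(2 * x)) * (2 * Real.cosh (2 * x)) := by
        rw [← h4]
        gcongr
      nlinarith only [h1, h5, h7, h8, hc, hc1]
    have k1 := key 1 one_pos le_rfl
    have k2 := key r hr0 hr1
    have e1 : Pool.Agent.PB.Kg x + 2 = 2 * (Real.sinh (2 * x) / (Real.cosh (2 * x) + 1) - 1) -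
        4 * (Real.sinh (2 * x) / (Real.cosh (2 * x) + r) - 1) := by
      unfold Pool.Agent.PB.Kg
      ring
    rw [e1, abs_le]
    rw [abs_le] at k1 k2
    constructor <;> linarith [k1.1, k1.2, k2.1, k2.2]
  · have h1 := PB.abs_Kg_le x
    have h2 : 1 ≤ Real.exp (-(2 * x)) := Real.one_le_exp (by linarith)
    have h3 := abs_add_le (Pool.Agent.PB.Kg x) 2
    rw [abs_two] at h3
    linarith

/-- `Lg` is almost constant to the right -/
theorem Lg_le {x y : ℝ} (h : y ≤ x) : |Lg x - Lg y| ≤ 12 * Real.exp (-(2 * y)) := by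
  have hd : ∀ t, HasDerivAt Lg (Pool.Agent.PB.Kg t + 2) t := fun t => by
    have h1 := (Pool.Agent.PB.hasDerivAt_log_g t).add ((hasDerivAt_id t).const_mul 2)
    rw [mul_one] at h1
    exact h1
  have he : ∀ t, HasDerivAt (fun t : ℝ => 12 * Real.exp (-(2 * t)))
      (-(24 * Real.exp (-(2 * t)))) t := fun t => by
    have h1 := ((((hasDerivAt_id t).const_mul 2).neg).exp).const_mul 12
    have h2 : HasDerivAt (fun t : ℝ => 12 * Real.exp (-(2 * t)))
        (12 * (Real.exp (-(2 * t)) * -(2 * 1))) t := h1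
    exact h2.congr_deriv (by ring)
  have m1 : Monotone fun t => Lg t - 12 * Real.exp (-(2 * t)) :=
    monotone_of_hasDerivAt_nonneg (fun t => (hd t).sub (he t)) fun t => by
      have := abs_le.1 (Kg_two t)
      show 0 ≤ Pool.Agent.PB.Kg t + 2 - -(24 * Real.exp (-(2 * t)))
      linarith [this.1]
  have m2 : Monotone fun t => -Lg t - 12 * Real.exp (-(2 * t)) :=
    monotone_of_hasDerivAt_nonneg (fun t => ((hd t).neg).sub (he t)) fun t => by
      have := abs_le.1 (Kg_two t)
      show 0 ≤ -(Pool.Agent.PB.Kg t + 2) - -(24 * Real.exp (-(2 * t)))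
      linarith [this.2]
  have h1 := m1 h
  have h2 := m2 h
  simp only at h1 h2
  have h3 := Real.exp_pos (-(2 * x))
  rw [abs_le]
  constructor <;> linarith

lemma exp_two_int : Integrable (fun u : ℝ => Real.exp (-(5 / 2 * |u|)) * Real.exp (2 * u)) ∧
    ∫ u : ℝ, Real.exp (-(5 / 2 * |u|)) * Real.exp (2 * u) ≤ 4 := by
  have h1 := NUDispW.int_exp_abs (by norm_num : (0 : ℝ) < 1 / 2) 0
  simp only [sub_zero] at h1
  have hp : ∀ u : ℝ, Real.exp (-(5 / 2 * |u|)) * Real.exp (2 * u) ≤ Real.exp (-(1 / 2 * |u|)) := by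
    intro u
    rw [← Real.exp_add]
    refine Real.exp_le_exp.2 ?_
    have := le_abs_self u
    linarith
  have hi : Integrable fun u : ℝ => Real.exp (-(5 / 2 * |u|)) * Real.exp (2 * u) :=
    h1.1.mono' (Continuous.aestronglyMeasurable (by fun_prop)) (ae_of_all _ fun u => by
      rw [Real.norm_eq_abs, abs_of_nonneg (by positivity)]
      exact hp u)
  exact ⟨hi, (integral_mono hi h1.1 hp).trans (by rw [h1.2]; norm_num)⟩

/-- one side -/
theorem lgp_dec1 {s : ℝ} {f : ℝ → ℝ} (hf : DnS s f) (h0 : ∫ t, f t = 0) {t h : ℝ} (hth : h ≤ t) :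
    |NUC43.lgp f t - NUC43.lgp f h| ≤ 48 * s * Real.exp (-(2 * h)) := by
  have e : NUC43.lgp f t - NUC43.lgp f h = ∫ u, f u * (Lg (t - u) - Lg (h - u)) := by
    unfold NUC43.lgp
    rw [← integral_sub (hf.lg_in t) (hf.lg_in h)]
    have e1 : ∀ u, f u * (Lg (t - u) - Lg (h - u)) =
        (f u * Real.log (g (t - u)) - f u * Real.log (g (h - u))) + (2 * (t - h)) * f u := by
      intro u
      unfold Lg
      ring
    simp_rw [e1]
    have h1 := integral_add (f := fun u => f u * Real.log (g (t - u)) - f u * Real.log (g (h - u)))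
      (g := fun u => (2 * (t - h)) * f u) ((hf.lg_in t).sub (hf.lg_in h)) (hf.int.const_mul _)
    rw [h1, integral_const_mul, h0]
    ring
  obtain ⟨i1, i2⟩ := exp_two_int
  have hp : ∀ u, |f u * (Lg (t - u) - Lg (h - u))| ≤
      (12 * s * Real.exp (-(2 * h))) * (Real.exp (-(5 / 2 * |u|)) * Real.exp (2 * u)) := by
    intro u
    rw [abs_mul]
    have h1 := Lg_le (x := t - u) (y := h - u) (by linarith)
    have h2 : Real.exp (-(2 * (h - u))) = Real.exp (-(2 * h)) * Real.exp (2 * u) := by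
      rw [← Real.exp_add]
      congr 1
      ring
    rw [h2] at h1
    calc |f u| * |Lg (t - u) - Lg (h - u)| ≤ (s * Real.exp (-(5 / 2 * |u|))) *
          (12 * (Real.exp (-(2 * h)) * Real.exp (2 * u))) :=
          mul_le_mul (hf.b u) h1 (abs_nonneg _) (mul_nonneg hf.s0 (Real.exp_pos _).le)
      _ = _ := by ring
  rw [e]
  have h3 : |∫ u, f u * (Lg (t - u) - Lg (h - u))| ≤
      ∫ u, (12 * s * Real.exp (-(2 * h))) * (Real.exp (-(5 / 2 * |u|)) * Real.exp (2 * u)) := by
    rw [← Real.norm_eq_abs]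
    exact norm_integral_le_of_norm_le (i1.const_mul _) (ae_of_all _ fun u => by
      rw [Real.norm_eq_abs]
      exact hp u)
  refine h3.trans ?_
  rw [integral_const_mul]
  have h4 : 0 ≤ 12 * s * Real.exp (-(2 * h)) := by
    have := hf.s0
    positivity
  have h5 := mul_le_mul_of_nonneg_left i2 h4
  linarith

lemma lgp_neg (f : ℝ → ℝ) (t : ℝ) : NUC43.lgp (fun u => f (-u)) t = NUC43.lgp f (-t) := by
  unfold NUC43.lgp
  rw [← integral_neg_eq_self]
  refine integral_congr_ae (ae_of_all _ fun u => ?_)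
  simp only [neg_neg]
  rw [show t - -u = -(-t - u) by ring, NUE.g_even]

lemma DnS.neg {s : ℝ} {f : ℝ → ℝ} (hf : DnS s f) : DnS s fun u => f (-u) :=
  ⟨hf.s0, hf.c.comp continuous_neg, fun t => (hf.b (-t)).trans_eq (by rw [abs_neg])⟩

/-- **the potential of a neutral density is almost constant on each side** -/
theorem lgp_dec {s : ℝ} {f : ℝ → ℝ} (hf : DnS s f) (h0 : ∫ t, f t = 0) (t h : ℝ) :
    |NUC43.lgp f t - NUC43.lgp f h| ≤ 48 * s * (Real.exp (-(2 * |h|)) * Real.exp (2 * |t - h|)) := by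
  have hs := hf.s0
  have key : ∀ {f : ℝ → ℝ}, DnS s f → ∫ t, f t = 0 → ∀ t h : ℝ, 0 ≤ h →
      |NUC43.lgp f t - NUC43.lgp f h| ≤
        48 * s * (Real.exp (-(2 * |h|)) * Real.exp (2 * |t - h|)) := by
    intro f hf h0 t h hh
    rcases le_total h t with hth | hth
    · refine (lgp_dec1 hf h0 hth).trans ?_
      rw [abs_of_nonneg hh]
      have h1 : 1 ≤ Real.exp (2 * |t - h|) := Real.one_le_exp (by positivity)
      have h2 : 0 ≤ 48 * s * Real.exp (-(2 * h)) := by positivity
      have h3 := mul_le_mul_of_nonneg_left h1 h2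
      linarith
    · rw [abs_sub_comm]
      refine (lgp_dec1 hf h0 hth).trans ?_
      rw [abs_of_nonneg hh, abs_of_nonpos (by linarith : t - h ≤ 0), ← Real.exp_add]
      refine mul_le_mul_of_nonneg_left (Real.exp_le_exp.2 (by linarith)) (by positivity)
  rcases le_total 0 h with hh | hh
  · exact key hf h0 t h hh
  · have h1 := key hf.neg (by rw [integral_neg_eq_self (fun u => f u), h0]) (-t) (-h) (by linarith)
    rw [lgp_neg, lgp_neg, neg_neg, neg_neg, abs_neg, show -t - -h = -(t - h) by ring, abs_neg] at h1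
    exact h1

/-! ### the energy -/

/-- **the energy of a source** -/
def srcEn (ν : Bool → ℝ → ℝ) (τ : ℝ → ℝ) : ℝ :=
  1 / 2 * (∫ t, τ t * NUC43.lgp τ t) + ∑ a, 1 / 2 * (∫ t, ν a t * ∫ u, ν a u * V (t - u))

/-- one place -/
lemma pair_exp {c d : ℝ} (hd : 0 ≤ d) (hcd : d < c) (h : ℝ) :
    Integrable (fun t : ℝ => Real.exp (-(c * |t - h|)) * Real.exp (-(d * |t|))) ∧
      ∫ t : ℝ, Real.exp (-(c * |t - h|)) * Real.exp (-(d * |t|)) ≤
        2 / (c - d) * Real.exp (-(d * |h|)) := by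
  obtain ⟨i1, i2⟩ := NUDispW.int_exp_abs (sub_pos.2 hcd) h
  have hp : ∀ t : ℝ, Real.exp (-(c * |t - h|)) * Real.exp (-(d * |t|)) ≤
      Real.exp (-(d * |h|)) * Real.exp (-((c - d) * |t - h|)) := by
    intro t
    rw [← Real.exp_add, ← Real.exp_add]
    refine Real.exp_le_exp.2 ?_
    have h1 : |h| ≤ |t| + |t - h| := by
      have := abs_sub_abs_le_abs_sub h t
      rw [abs_sub_comm] at this
      linarith
    have h2 := mul_le_mul_of_nonneg_left h1 hd
    linarith
  have hi : Integrable fun t : ℝ => Real.exp (-(c * |t - h|)) * Real.exp (-(d * |t|)) :=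
    (i1.const_mul (Real.exp (-(d * |h|)))).mono' (Continuous.aestronglyMeasurable (by fun_prop))
      (ae_of_all _ fun t => by
        rw [Real.norm_eq_abs, abs_of_nonneg (by positivity)]
        exact hp t)
  refine ⟨hi, (integral_mono hi (i1.const_mul _) hp).trans_eq ?_⟩
  rw [integral_const_mul, i2]
  ring

/-- a localised density against a decaying field -/
theorem loc_le {ι : Type*} [Fintype ι] {x : ι → ℝ} {c d A B : ℝ} (hd : 0 ≤ d) (hcd : d < c)
    (hA : 0 ≤ A) {f w : ℝ → ℝ} (hf : ∀ t, |f t| ≤ A * ∑ i, Real.exp (-(c * |t - x i|)))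
    (hw : ∀ t, |w t| ≤ B * Real.exp (-(d * |t|))) :
    |∫ t, f t * w t| ≤ A * B * (2 / (c - d)) * ∑ i, Real.exp (-(d * |x i|)) := by
  have hB : 0 ≤ B := by
    have h1 := (abs_nonneg _).trans (hw 0)
    rw [abs_zero, mul_zero, neg_zero, Real.exp_zero, mul_one] at h1
    exact h1
  have hi : Integrable fun t => A * B * ∑ i, Real.exp (-(c * |t - x i|)) * Real.exp (-(d * |t|)) :=
    (integrable_finsetSum _ fun i _ => (pair_exp hd hcd (x i)).1).const_mul _
  have h1 : |∫ t, f t * w t| ≤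
      ∫ t, A * B * ∑ i, Real.exp (-(c * |t - x i|)) * Real.exp (-(d * |t|)) := by
    rw [← Real.norm_eq_abs]
    refine norm_integral_le_of_norm_le hi (ae_of_all _ fun t => ?_)
    rw [Real.norm_eq_abs, abs_mul]
    calc |f t| * |w t| ≤ (A * ∑ i, Real.exp (-(c * |t - x i|))) * (B * Real.exp (-(d * |t|))) :=
          mul_le_mul (hf t) (hw t) (abs_nonneg _) ((abs_nonneg _).trans (hf t))
      _ = _ := by
        rw [← Finset.sum_mul]
        ring
  refine h1.trans ?_
  rw [integral_const_mul, integral_finsetSum _ fun i _ => (pair_exp hd hcd (x i)).1]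
  have h2 : ∑ i, ∫ t : ℝ, Real.exp (-(c * |t - x i|)) * Real.exp (-(d * |t|)) ≤
      2 / (c - d) * ∑ i, Real.exp (-(d * |x i|)) := by
    rw [Finset.mul_sum]
    exact Finset.sum_le_sum fun i _ => (pair_exp hd hcd (x i)).2
  have h3 := mul_le_mul_of_nonneg_left h2 (mul_nonneg hA hB)
  linarith

/-- the potential `V * ν` of a density of a source -/
lemma DnS.Vdec {s : ℝ} {f : ℝ → ℝ} (hf : DnS s f) (t : ℝ) :
    |∫ u, f u * V (t - u)| ≤ s * NUEnW.KV (3 / 2) * Real.exp (-(3 / 2 * |t|)) := by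
  have h1 := Vmu_le (κ := Fin 1) (s := Finset.univ) (τ := fun _ => 0) (c := 3 / 2) (A := s)
    (μ := f) (by norm_num) (by norm_num) hf.s0 hf.c.aestronglyMeasurable (fun x => by
      unfold bmaj
      rw [Fin.sum_univ_one, sub_zero]
      refine (hf.b x).trans (mul_le_mul_of_nonneg_left (Real.exp_le_exp.2 ?_) hf.s0)
      have := abs_nonneg x
      linarith) t
  unfold bmaj at h1
  rw [Fin.sum_univ_one, sub_zero] at h1
  exact h1

/-- **a decaying remainder**: size `s`, energy `E` -/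
structure RemD (s E : ℝ) (ψ : Bool → ℝ → ℝ) : Prop where
  c : ∀ a, ContDiff ℝ 1 (ψ a)
  b : ∀ a t, |ψ a t| ≤ s * Real.exp (-(3 / 2 * |t|))
  e : ∀ a T, 0 ≤ T → ∫ t in (-(T + 1))..(T + 1), (ψ a t ^ 2 + deriv (ψ a) t ^ 2) ≤ E

lemma RemD.s0 {s E : ℝ} {ψ : Bool → ℝ → ℝ} (h : RemD s E ψ) : 0 ≤ s := by
  have h1 := (abs_nonneg _).trans (h.b true 0)
  rw [abs_zero, mul_zero, neg_zero, Real.exp_zero, mul_one] at h1
  exact h1

lemma RemD.rem {s s1 E : ℝ} {ψ : Bool → ℝ → ℝ} (h : RemD s E ψ) (hs : s ≤ s1) : RemOk s1 E ψ where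
  c := h.c
  e := h.e
  b a t := by
    refine (h.b a t).trans ?_
    have h1 : Real.exp (-(3 / 2 * |t|)) ≤ 1 := Real.exp_le_one_iff.2 (by
      have := abs_nonneg t
      linarith)
    have h2 := mul_le_mul_of_nonneg_left h1 h.s0
    linarith

/-- the charge of an object -/
def chq (x : Xo) : ℝ := NUC43.sg (NUO.sp x) * NUC43.kq (kd x)

/-- the splitting of the objects in the potential of a neutral density -/
theorem tauC_lgp {j e : ℝ} (hj : NUC43.Adm j e) : ∃ K : ℝ, 0 ≤ K ∧ ∀ {r : ℕ} (O : Fin r → Xo)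
    {s : ℝ} {f : ℝ → ℝ}, DnS s f → ∫ t, f t = 0 →
    |(∫ t, NUC43.tauC j e O t * NUC43.lgp f t) + ∑ i, chq (O i) * NUC43.lgp f (ht (O i))| ≤
      K * s * ∑ i, Real.exp (-(2 * |ht (O i)|)) := by
  choose MT hT0 hT using fun K => (NUC43.dnT hj K).bd
  obtain ⟨Mm, hMm⟩ : ∃ Mm, Mm = ∑ K, MT K := ⟨_, rfl⟩
  have hle : ∀ K, MT K ≤ Mm := fun K => by
    rw [hMm]
    exact Finset.single_le_sum (f := MT) (fun K _ => hT0 K) (Finset.mem_univ K)
  have hM0 : 0 ≤ Mm := by rw [hMm]; exact Finset.sum_nonneg fun K _ => hT0 K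
  refine ⟨192 * Mm, by positivity, fun {r} O {s f} hf h0 => ?_⟩
  have hs := hf.s0
  have d1 : ∀ i, NUC43.Dn fun t => NUC43.sgT j e (kd (O i)) (t - ht (O i)) := fun i =>
    (NUC43.dnT hj (kd (O i))).shift _
  have i1 : ∀ i, Integrable fun t => NUC43.sgT j e (kd (O i)) (t - ht (O i)) * NUC43.lgp f t :=
    fun i => NUC43.lg_out (d1 i) hf.dn
  have e1 : ∫ t, NUC43.tauC j e O t * NUC43.lgp f t =
      ∑ i, NUC43.sg (NUO.sp (O i)) * ∫ t, NUC43.sgT j e (kd (O i)) (t - ht (O i)) * NUC43.lgp f t := by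
    have h1 : ∀ t, NUC43.tauC j e O t * NUC43.lgp f t = ∑ i, NUC43.sg (NUO.sp (O i)) *
        (NUC43.sgT j e (kd (O i)) (t - ht (O i)) * NUC43.lgp f t) := by
      intro t
      unfold NUC43.tauC
      rw [Finset.sum_mul]
      exact Finset.sum_congr rfl fun i _ => by ring
    simp_rw [h1]
    rw [integral_finsetSum _ fun i _ => (i1 i).const_mul _]
    exact Finset.sum_congr rfl fun i _ => integral_const_mul _ _
  have e2 : ∀ i, ∫ t, NUC43.sgT j e (kd (O i)) (t - ht (O i)) * NUC43.lgp f t =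
      -(NUC43.kq (kd (O i)) * NUC43.lgp f (ht (O i))) +
      ∫ t, NUC43.sgT j e (kd (O i)) (t - ht (O i)) * (NUC43.lgp f t - NUC43.lgp f (ht (O i))) := by
    intro i
    have h1 : ∫ t, NUC43.sgT j e (kd (O i)) (t - ht (O i)) = -NUC43.kq (kd (O i)) := by
      rw [integral_sub_right_eq_self (fun u => NUC43.sgT j e (kd (O i)) u) (ht (O i)), NUC43.sgT,
        (NUC43.chgK hj _).intT]
    have h2 : ∀ t, NUC43.sgT j e (kd (O i)) (t - ht (O i)) *
        (NUC43.lgp f t - NUC43.lgp f (ht (O i))) =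
        NUC43.sgT j e (kd (O i)) (t - ht (O i)) * NUC43.lgp f t -
        NUC43.sgT j e (kd (O i)) (t - ht (O i)) * NUC43.lgp f (ht (O i)) := fun t => by ring
    simp_rw [h2]
    rw [integral_sub (i1 i) ((d1 i).int.mul_const _), integral_mul_const, h1]
    ring
  have b1 : ∀ i, |∫ t, NUC43.sgT j e (kd (O i)) (t - ht (O i)) *
      (NUC43.lgp f t - NUC43.lgp f (ht (O i)))| ≤ 192 * Mm * s * Real.exp (-(2 * |ht (O i)|)) := by
    intro i
    obtain ⟨k1, k2⟩ := NUDispW.int_exp_abs (by norm_num : (0 : ℝ) < 1 / 2) (ht (O i))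
    have hp : ∀ t, |NUC43.sgT j e (kd (O i)) (t - ht (O i)) *
        (NUC43.lgp f t - NUC43.lgp f (ht (O i)))| ≤
        (48 * Mm * s * Real.exp (-(2 * |ht (O i)|))) * Real.exp (-(1 / 2 * |t - ht (O i)|)) := by
      intro t
      rw [abs_mul]
      have h1 : |NUC43.sgT j e (kd (O i)) (t - ht (O i))| ≤
          Mm * Real.exp (-(5 / 2) * |t - ht (O i)|) :=
        (hT _ _).trans (mul_le_mul_of_nonneg_right (hle _) (Real.exp_pos _).le)
      have h2 := lgp_dec hf h0 t (ht (O i))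
      calc |NUC43.sgT j e (kd (O i)) (t - ht (O i))| * |NUC43.lgp f t - NUC43.lgp f (ht (O i))| ≤
            (Mm * Real.exp (-(5 / 2) * |t - ht (O i)|)) *
            (48 * s * (Real.exp (-(2 * |ht (O i)|)) * Real.exp (2 * |t - ht (O i)|))) :=
            mul_le_mul h1 h2 (abs_nonneg _) (by positivity)
        _ = (48 * Mm * s * Real.exp (-(2 * |ht (O i)|))) *
            (Real.exp (-(5 / 2) * |t - ht (O i)|) * Real.exp (2 * |t - ht (O i)|)) := by ring
        _ = _ := by
          rw [← Real.exp_add]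
          congr 2
          ring
    have h3 : |∫ t, NUC43.sgT j e (kd (O i)) (t - ht (O i)) *
        (NUC43.lgp f t - NUC43.lgp f (ht (O i)))| ≤
        ∫ t, (48 * Mm * s * Real.exp (-(2 * |ht (O i)|))) * Real.exp (-(1 / 2 * |t - ht (O i)|)) := by
      rw [← Real.norm_eq_abs]
      exact norm_integral_le_of_norm_le (k1.const_mul _) (ae_of_all _ fun t => by
        rw [Real.norm_eq_abs]
        exact hp t)
    rw [integral_const_mul, k2] at h3
    refine h3.trans (le_of_eq ?_)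
    ring
  have e3 : (∫ t, NUC43.tauC j e O t * NUC43.lgp f t) + ∑ i, chq (O i) * NUC43.lgp f (ht (O i)) =
      ∑ i, NUC43.sg (NUO.sp (O i)) * ∫ t, NUC43.sgT j e (kd (O i)) (t - ht (O i)) *
        (NUC43.lgp f t - NUC43.lgp f (ht (O i))) := by
    rw [e1, ← Finset.sum_add_distrib]
    refine Finset.sum_congr rfl fun i _ => ?_
    rw [e2]
    unfold chq
    ring
  rw [e3, Finset.mul_sum]
  refine (Finset.abs_sum_le_sum_abs _ _).trans (Finset.sum_le_sum fun i _ => ?_)
  rw [abs_mul]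
  have h4 : |NUC43.sg (NUO.sp (O i))| = 1 := by
    cases NUO.sp (O i) <;> simp [NUC43.sg]
  rw [h4, one_mul]
  exact b1 i

end NUSea.PLX.H0

end
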