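import Pool.Agent.PLX.IST.Src0
import Pool.Agent.PB.LC
import Pool.Agent.NUSea.Inst
import Pool.Agent.PLX.NUSea.One

/-!
# Moved rows are an exact source

Rows moved from `0` to `i c` with multiplicities `k a` (species `a`): on the line the potential is
`k a (vs (t - c) - vs t) + k (!a) (vx (t - c) - vx t)`; it is the potential `srcP` of the densities
`rowν c k a = k a (P (. - c) - P)` (row and cloud are neutral in each species).

* `rowν_mass`: the densities are neutral;
* **`srcP_row`**: the exact identity, every sea; **`srcOk_row`**: a source of size `C (|k true| + |k false|)`,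
  `|c| ≤ c0`;
* **`srcP_rowP`**: the same for rows at `0` in terms of the atoms `AT` of `PB/LC`.
-/

set_option autoImplicit false
set_option linter.unusedSectionVars false

noncomputable section

open MeasureTheory Finset Filter Topology Complex

namespace NUSea.PLX.H0

open NUMF NUO NUDispW

section

variable [Sea]

/-- densities of the moved rows -/
def rowν (c : ℝ) (k : Bool → ℝ) (a : Bool) (t : ℝ) : ℝ := k a * (P (t - c) - P t)

/-- their splitting -/
def rowτ (c : ℝ) (k : Bool → ℝ) (t : ℝ) : ℝ := (k true - k false) * (P (t - c) - P t)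

theorem rowτ_eq (c : ℝ) (k : Bool → ℝ) (t : ℝ) : rowτ c k t = rowν c k true t - rowν c k false t := by
  unfold rowτ rowν
  ring

lemma P_int : Integrable P := by
  obtain ⟨C, hC, h⟩ := P_le
  have h1 : Integrable fun t : ℝ => C * Real.exp (-(8 / 3 * |t|)) :=
    (integrable_exp_abs (by norm_num : (0 : ℝ) < 8 / 3)).const_mul C
  refine h1.mono' P_cont.aestronglyMeasurable (Eventually.of_forall fun t => ?_)
  rw [Real.norm_eq_abs, abs_of_pos (P_pos t)]
  have := h t
  rwa [neg_mul] at this

theorem dP_mass (c : ℝ) : ∫ t, (P (t - c) - P t) = 0 := by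
  rw [integral_sub (P_int.comp_sub_right c) P_int, integral_sub_right_eq_self (fun t => P t) c, sub_self]

theorem rowτ_mass (c : ℝ) (k : Bool → ℝ) : ∫ t, rowτ c k t = 0 := by
  unfold rowτ
  rw [integral_const_mul, dP_mass, mul_zero]

theorem rowν_mass (c : ℝ) (k : Bool → ℝ) (a : Bool) : ∫ t, rowν c k a t = 0 := by
  unfold rowν
  rw [integral_const_mul, dP_mass, mul_zero]

/-- `P (. - c)` against a kernel -/
lemma conv_shift {K : ℝ → ℝ} {f : ℝ → ℝ}
    (h : ∀ x : ℝ, Integrable (fun s => P s * K (x - s)) ∧ ∫ s, P s * K (x - s) = f x) (c t : ℝ) :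
    Integrable (fun s => P (s - c) * K (t - s)) ∧ ∫ s, P (s - c) * K (t - s) = f (t - c) := by
  have e : (fun s => P (s - c) * K (t - s)) = fun s => (fun u => P u * K (t - c - u)) (s - c) := by
    funext s
    simp only
    rw [show t - c - (s - c) = t - s by ring]
  rw [e]
  exact ⟨(h (t - c)).1.comp_sub_right c, by
    rw [integral_sub_right_eq_self (fun u => P u * K (t - c - u)) c]
    exact (h (t - c)).2⟩

/-- **the potential of the moved rows** -/
theorem srcP_row (c : ℝ) (k : Bool → ℝ) (a : Bool) (t : ℝ) :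
    srcP (rowν c k) (rowτ c k) a t =
      k a * ((vs ((t - c : ℝ) : ℂ)).re - (vs (t : ℂ)).re) +
        k (!a) * ((vx ((t - c : ℝ) : ℂ)).re - (vx (t : ℂ)).re) := by
  have hv : ∀ x : ℝ, Integrable (fun s => P s * V (x - s)) ∧ ∫ s, P s * V (x - s) = v x := conv_V
  obtain ⟨i1, e1⟩ := conv_shift hv c t
  obtain ⟨i2, e2⟩ := hv t
  obtain ⟨j1, f1⟩ := conv_shift (K := fun y => Real.log (g y)) (f := fun x => -(vx (x : ℂ)).re) conv_g c t
  obtain ⟨j2, f2⟩ := conv_g t
  have g1 : ∫ u, rowν c k a u * V (t - u) = k a * (v (t - c) - v t) := by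
    have e : (fun u => rowν c k a u * V (t - u)) = fun u =>
        k a * (P (u - c) * V (t - u) - P u * V (t - u)) := by
      funext u
      unfold rowν
      ring
    rw [e, integral_const_mul, integral_sub i1 i2, e1, e2]
  have g2 : NUC43.lgp (rowτ c k) t = (k true - k false) * (-(vx ((t - c : ℝ) : ℂ)).re + (vx (t : ℂ)).re) := by
    unfold NUC43.lgp
    have e : (fun u => rowτ c k u * Real.log (g (t - u))) = fun u =>
        (k true - k false) * (P (u - c) * Real.log (g (t - u)) - P u * Real.log (g (t - u))) := by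
      funext u
      unfold rowτ
      ring
    rw [e, integral_const_mul, integral_sub j1 j2, f1, f2]
    ring
  have e3 : ∀ x : ℝ, v x = (vs (x : ℂ)).re + (vx (x : ℂ)).re := fun x => by
    show (vc (x : ℂ)).re = _
    unfold vc
    rw [Complex.add_re]
  unfold srcP
  rw [g1, g2, e3, e3]
  cases a
  · simp only [Dat.sg, Bool.false_eq_true, if_false, Bool.not_false]
    ring
  · simp only [Dat.sg, if_true, Bool.not_true]
    ring

/-- **the moved rows are a source** -/
theorem srcOk_row (c0 : ℝ) : ∃ C : ℝ, 0 ≤ C ∧ ∀ c : ℝ, |c| ≤ c0 → ∀ k : Bool → ℝ,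
    SrcOk (C * (|k true| + |k false|)) (rowν c k) (rowτ c k) := by
  obtain ⟨C, hC, h⟩ := P_le
  refine ⟨C * (Real.exp (8 / 3 * c0) + 1), by positivity, fun c hc k => ?_⟩
  have hd : ∀ t, |P (t - c) - P t| ≤ C * (Real.exp (8 / 3 * c0) + 1) * Real.exp (-(5 / 2 * |t|)) := by
    intro t
    have h1 : P (t - c) ≤ C * Real.exp (8 / 3 * c0) * Real.exp (-(5 / 2 * |t|)) := by
      refine (h (t - c)).trans ?_
      rw [mul_assoc, ← Real.exp_add]
      refine mul_le_mul_of_nonneg_left (Real.exp_le_exp.2 ?_) hC.le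
      have h2 : |t| ≤ |t - c| + |c| := by
        have := abs_add_le (t - c) c
        rwa [sub_add_cancel] at this
      have := abs_nonneg t
      linarith
    have h2 : P t ≤ C * Real.exp (-(5 / 2 * |t|)) := by
      refine (h t).trans (mul_le_mul_of_nonneg_left (Real.exp_le_exp.2 ?_) hC.le)
      have := abs_nonneg t
      linarith
    have p1 := P_pos (t - c)
    have p2 := P_pos t
    have p3 : 0 ≤ C * Real.exp (8 / 3 * c0) * Real.exp (-(5 / 2 * |t|)) := by positivity
    have p4 : 0 ≤ C * Real.exp (-(5 / 2 * |t|)) := by positivity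
    rw [abs_le]
    constructor <;> nlinarith
  have hcP : Continuous fun t => P (t - c) - P t :=
    (P_cont.comp (continuous_id.sub continuous_const)).sub P_cont
  have hk0 : 0 ≤ |k true| + |k false| := by positivity
  have key : ∀ x : ℝ, |x| ≤ |k true| + |k false| →
      DnS (C * (Real.exp (8 / 3 * c0) + 1) * (|k true| + |k false|)) fun t => x * (P (t - c) - P t) :=
    fun x hx => ⟨by positivity, continuous_const.mul hcP, fun t => by
      rw [abs_mul]
      calc |x| * |P (t - c) - P t| ≤ (|k true| + |k false|) *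
            (C * (Real.exp (8 / 3 * c0) + 1) * Real.exp (-(5 / 2 * |t|))) :=
            mul_le_mul hx (hd t) (abs_nonneg _) hk0
        _ = _ := by ring⟩
  refine ⟨fun a => ?_, ?_, rowτ_mass c k⟩
  · refine key (k a) ?_
    cases a
    · linarith [abs_nonneg (k true)]
    · linarith [abs_nonneg (k false)]
  · exact key (k true - k false) (abs_sub _ _)

end

/-! ### rows at `0` -/

open PBH (AT)

/-- the atoms on the line -/
lemma AT_line (c t : ℝ) : AT 0 (3 * l) c (fun _ => 0) t + AT 0 (-(3 * l)) c (fun _ => 0) t =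
    2 * Real.log (Real.cosh (t - c)) - Real.log ((Real.cosh (2 * (t - c)) - r) / 2) := by
  have key : ∀ y : ℝ, ‖Complex.cosh (((t - c : ℝ) : ℂ) + ((0 : ℝ) : ℂ) * I + (y : ℂ) * I)‖ ^ 2 =
      (Real.cosh (2 * (t - c)) + Real.cos (2 * y)) / 2 := by
    intro y
    rw [PBH.norm_sq_eq]
    have e1 : (((t - c : ℝ) : ℂ) + ((0 : ℝ) : ℂ) * I + (y : ℂ) * I).re = t - c := by simp
    have e2 : (((t - c : ℝ) : ℂ) + ((0 : ℝ) : ℂ) * I + (y : ℂ) * I).im = y := by simp
    rw [e1, e2]
    have h1 := Real.cosh_two_mul (t - c)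
    have h2 := Real.cosh_sq (t - c)
    have h3 := Real.cos_two_mul y
    linarith
  have h0 : ‖Complex.cosh (((t - c : ℝ) : ℂ) + ((0 : ℝ) : ℂ) * I + ((0 : ℝ) : ℂ) * I)‖ =
      Real.cosh (t - c) := by
    rw [Complex.ofReal_zero, zero_mul, add_zero, add_zero, ← Complex.ofReal_cosh, Complex.norm_real,
      Real.norm_of_nonneg (Real.cosh_pos _).le]
  have hr : Real.cos (2 * (3 * l)) = -r := by
    have : 2 * (3 * l) = Real.pi - Real.pi / 4 := by unfold l; ring
    rw [this, Real.cos_pi_sub, ← r_eq]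
  have hr' : Real.cos (2 * (-(3 * l))) = -r := by
    rw [show 2 * (-(3 * l)) = -(2 * (3 * l)) by ring, Real.cos_neg, hr]
  have k1 := key (3 * l)
  have k2 := key (-(3 * l))
  rw [hr, ← sub_eq_add_neg] at k1
  rw [hr', ← sub_eq_add_neg] at k2
  have l1 : 2 * Real.log ‖Complex.cosh (((t - c : ℝ) : ℂ) + ((0 : ℝ) : ℂ) * I + ((3 * l : ℝ) : ℂ) * I)‖ =
      Real.log ((Real.cosh (2 * (t - c)) - r) / 2) := by
    rw [← k1, Real.log_pow]
    push_cast
    ring
  have l2 : 2 * Real.log ‖Complex.cosh (((t - c : ℝ) : ℂ) + ((0 : ℝ) : ℂ) * I +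
      ((-(3 * l) : ℝ) : ℂ) * I)‖ = Real.log ((Real.cosh (2 * (t - c)) - r) / 2) := by
    rw [← k2, Real.log_pow]
    push_cast
    ring
  unfold AT PBH.LC
  rw [Complex.sub_re, Complex.sub_re, Complex.log_re, Complex.log_re, Complex.log_re, h0]
  linarith

/-- **the potential of the moved rows at `0`** -/
theorem srcP_rowP (c : ℝ) (k : Bool → ℝ) (a : Bool) (t : ℝ) :
    srcP (@rowν seaP c k) (@rowτ seaP c k) a t =
      k a * (AT 0 (3 * l) c (fun _ => 0) t + AT 0 (-(3 * l)) c (fun _ => 0) t -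
        (AT 0 (3 * l) 0 (fun _ => 0) t + AT 0 (-(3 * l)) 0 (fun _ => 0) t)) +
        2 * (k (!a) - k a) * (Real.log (Real.cosh (t - c)) - Real.log (Real.cosh t)) := by
  have h1 := @srcP_row seaP c k a t
  rw [h1]
  have e1 : ∀ x : ℝ, (@vs seaP (x : ℂ)).re = -Real.log ((Real.cosh (2 * x) - r) / 2) := fun x => by
    show (NUAct.vs (x : ℂ)).re = _
    rw [NUAct.vs_ofReal, Complex.ofReal_re]
  have e2 : ∀ x : ℝ, (@vx seaP (x : ℂ)).re = 2 * Real.log (Real.cosh x) := fun x => by
    show (NUAct.vx (x : ℂ)).re = _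
    rw [NUAct.vx_ofReal, Complex.ofReal_re]
    have hc := Real.cosh_pos x
    have h2 := Real.cosh_two_mul x
    have h3 := Real.cosh_sq x
    have h4 : 2 / (Real.cosh (2 * x) + 1) = (Real.cosh x ^ 2)⁻¹ := by
      rw [h2]
      have : Real.cosh x ^ 2 + Real.sinh x ^ 2 + 1 = 2 * Real.cosh x ^ 2 := by linarith
      rw [this]
      field_simp
    rw [h4, Real.log_inv, Real.log_pow]
    push_cast
    ring
  have a1 := AT_line c t
  have a2 := AT_line 0 t
  rw [sub_zero] at a2
  rw [e1, e1, e2, e2, a1, a2]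
  ring

end NUSea.PLX.H0

end
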