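import Pool.Agent.PLX.NUSea.H0.DatC
import Pool.Agent.PLX.NUSea.H0.H0
import Pool.Agent.PLX.IST.Src0

/-!
# Sources: the extra data with a source

`addS I ν τ ψ`: the extra data with the source `(ν, τ)` and the remainder `ψ`.

* `wO_addS`, `IOk.addS`, `fld_addS`: remainder, hypotheses, equation;
* `int_add_sq`, `pot_addS`, `W0_src`: energy of a sum, one body potential, weight.
-/

set_option autoImplicit false
set_option linter.unusedSectionVars false

noncomputable section

open MeasureTheory Finset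
open scoped ENNReal

namespace NUSea.PLX.H0

open NUMF NUO NUStabP NUDispW NUEnW
open NUR2 (Cfg)
open NUH0 (plt plt_nonneg qc T0i T0i_ge shF shF_nonneg)

variable [Sea]

/-- **the extra data with a source** -/
def addS (I : Inp) (ν : Bool → ℝ → ℝ) (τ : ℝ → ℝ) (ψ : Bool → ℝ → ℝ) : Inp :=
  { I with
    B := fun a t => I.B a t + (srcP ν τ a t + ψ a t)
    ν := fun a t => I.ν a t + ν a t
    τD := fun t => I.τD t + τ t }

section

variable {I : Inp} {P : Par} {r : ℕ} {O : Fin r → Xo} {dl ε M b : ℝ} {e : ℝ → ℝ}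
  {s E : ℝ} {ν : Bool → ℝ → ℝ} {τ : ℝ → ℝ} {ψ : Bool → ℝ → ℝ}

theorem wO_addS (h : IOk dl ε M b e I P r) (hs : SrcOk s ν τ) (a : Bool) (t : ℝ) :
    wO (addS I ν τ ψ) a t = wO I a t + ψ a t := by
  obtain ⟨C, hC⟩ := h.νb a
  have i1 : Integrable fun u => I.ν a u * V (t - u) := by
    have h1 : Integrable fun u => V (t - u) := V_integral.1.comp_sub_left t
    exact (h1.mul_bdd (c := C) (h.νc a).aestronglyMeasurable (ae_of_all _ hC)).congr
      (ae_of_all _ fun u => mul_comm _ _)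
  have e1 : Vn (addS I ν τ ψ) a t = Vn I a t + ∫ u, ν a u * V (t - u) := by
    unfold Vn
    rw [← integral_add i1 ((hs.dν a).V_in t)]
    refine integral_congr_ae (ae_of_all _ fun u => ?_)
    show (I.ν a u + ν a u) * V (t - u) = _
    ring
  have e2 : NUC43.lgp (addS I ν τ ψ).τD t = NUC43.lgp I.τD t + NUC43.lgp τ t := by
    unfold NUC43.lgp
    rw [← integral_add (tau_logg_int h.τi h.τ1 t) (hs.dτ.lg_in t)]
    refine integral_congr_ae (ae_of_all _ fun u => ?_)
    show (I.τD u + τ u) * Real.log (g (t - u)) = _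
    ring
  unfold wO
  rw [e1, e2]
  show (I.A a (NUAct.zt (NUKer.iD (I.η a)) t)).re + (I.B a t + (srcP ν τ a t + ψ a t)) - _ - _ = _
  unfold srcP
  ring

theorem wO_addS' (h : IOk dl ε M b e I P r) (hs : SrcOk s ν τ) (a : Bool) :
    wO (addS I ν τ ψ) a = fun t => wO I a t + ψ a t := funext fun t => wO_addS h hs a t

/-- **the extra data with a source are admissible** -/
theorem IOk.addS (h : IOk dl ε M b e I P r) (hs : SrcOk s ν τ) (hψ : RemOk s E ψ) :
    IOk dl ε M b e (addS I ν τ ψ) P r where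
  s0 := h.s0
  b0 := h.b0
  cur := h.cur
  der := h.der
  com := h.com
  ε1 := h.ε1
  pg := h.pg
  d1 := h.d1
  d2 := h.d2
  Ae := h.Ae
  Bc a := (h.Bc a).add ((hs.cont a).add (hψ.c a).continuous)
  Bb a := by
    obtain ⟨C, hC⟩ := h.Bb a
    refine ⟨C + ((12 + ∫ u, |V u|) * s + s), fun t => ?_⟩
    show |I.B a t + (srcP ν τ a t + ψ a t)| ≤ _
    have h1 := hC t
    have h2 := hs.le a t
    have h3 := hψ.b a t
    have h4 := abs_add_le (I.B a t) (srcP ν τ a t + ψ a t)
    have h5 := abs_add_le (srcP ν τ a t) (ψ a t)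
    linarith
  νc a := (h.νc a).add (hs.dν a).c
  νi a := (h.νi a).add (hs.dν a).int
  νb a := by
    obtain ⟨C, hC⟩ := h.νb a
    refine ⟨C + s, fun t => ?_⟩
    show |I.ν a t + ν a t| ≤ _
    have h1 := hC t
    have h2 := (hs.dν a).le t
    have h4 := abs_add_le (I.ν a t) (ν a t)
    linarith
  τi := h.τi.add hs.dτ.int
  τ1 := by
    refine (h.τ1.add hs.dτ.mul_id).congr (ae_of_all _ fun x => ?_)
    show I.τD x * x + τ x * x = (I.τD x + τ x) * x
    ring
  wc a := by
    rw [wO_addS' h hs]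
    exact (h.wc a).add (hψ.c a)
  wb a := by
    obtain ⟨C, hC⟩ := h.wb a
    refine ⟨C + s, fun t => ?_⟩
    rw [wO_addS h hs]
    have h1 := hC t
    have h3 := hψ.b a t
    have h4 := abs_add_le (wO I a t) (ψ a t)
    linarith

/-- the equation of the data with a source -/
theorem fld_addS {p n : ℕ} (h : IOk dl ε M b e I P r) (hf : Fld (datO I P O) p n)
    (hs : SrcOk s ν τ) (hψ : RemOk s E ψ) : Fld (datO (addS I ν τ ψ) P O) p n := by
  have e1 : (datO (addS I ν τ ψ) P O).τ = fun t => (datO I P O).τ t + τ t := by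
    funext t
    show NUC43.tauC P.jL P.e O t + (I.τD t + τ t) = NUC43.tauC P.jL P.e O t + I.τD t + τ t
    ring
  refine ⟨?_, ?_, ?_, (h.addS hs hψ).lin_eq⟩
  · rw [e1]
    exact hf.τi.add hs.dτ.int
  · rw [e1]
    refine (hf.τ1.add hs.dτ.mul_id).congr (ae_of_all _ fun x => ?_)
    simp only [Pi.add_apply]
    ring
  · rw [e1, integral_add hf.τi hs.dτ.int, hf.τ0, hs.τ0, add_zero]
    rfl

/-- the energy of a sum -/
lemma int_add_sq {f f1 : ℝ → ℝ} (hf : ContDiff ℝ 1 f) (hf1 : ContDiff ℝ 1 f1) {T : ℝ} (hT : 0 ≤ T) :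
    ∫ t in (-(T + 1))..(T + 1), ((f t + f1 t) ^ 2 + deriv (fun t => f t + f1 t) t ^ 2) ≤
      2 * (∫ t in (-(T + 1))..(T + 1), (f t ^ 2 + deriv f t ^ 2)) +
      2 * ∫ t in (-(T + 1))..(T + 1), (f1 t ^ 2 + deriv f1 t ^ 2) := by
  have c1 := hf.continuous
  have c2 := hf1.continuous
  have d1 := hf.continuous_deriv le_rfl
  have d2 := hf1.continuous_deriv le_rfl
  have e : ∀ t, deriv (fun t => f t + f1 t) t = deriv f t + deriv f1 t := fun t =>
    deriv_fun_add (hf.differentiable (by norm_num) t) (hf1.differentiable (by norm_num) t)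
  simp_rw [e]
  rw [← intervalIntegral.integral_const_mul, ← intervalIntegral.integral_const_mul,
    ← intervalIntegral.integral_add (Continuous.intervalIntegrable (by fun_prop) _ _)
      (Continuous.intervalIntegrable (by fun_prop) _ _)]
  refine intervalIntegral.integral_mono_on (by linarith)
    (Continuous.intervalIntegrable (by fun_prop) _ _)
    (Continuous.intervalIntegrable (by fun_prop) _ _) fun t _ => ?_
  nlinarith only [sq_nonneg (f t - f1 t), sq_nonneg (deriv f t - deriv f1 t)]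

end

/-- the weight with a source -/
theorem W0_src (X : Dat) {p n : ℕ} (aX aY cf fX fY : ℝ → ℝ) (x : Cfg p n) :
    W0 X p n (fun t => aX t * Real.exp (fX t)) (fun t => aY t * Real.exp (fY t)) cf x =
      W0 X p n aX aY cf x * Real.exp (∑ i, fX (x.1 i) + ∑ i, fY (x.2 i)) := by
  unfold W0 NU42.WO NU42.ob
  rw [Real.exp_add, Real.exp_sum, Real.exp_sum]
  have e1 : ∀ {q : ℕ} (y : Fin q → ℝ) (D1 : ℝ → ℂ) (a f : ℝ → ℝ),
      ∏ i, (‖1 + D1 (y i)‖ * (fun t => (fun t => a t * Real.exp (f t)) t * cf t) (y i)) =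
      (∏ i, (‖1 + D1 (y i)‖ * (fun t => a t * cf t) (y i))) * ∏ i, Real.exp (f (y i)) := by
    intro q y D1 a f
    rw [← Finset.prod_mul_distrib]
    exact Finset.prod_congr rfl fun i _ => by ring
  rw [e1 x.1, e1 x.2]
  ring

/-- the one body potential with a source -/
theorem pot_addS {I : Inp} {P : Par} {r : ℕ} {O : Fin r → Xo} (ν : Bool → ℝ → ℝ) (τ : ℝ → ℝ)
    (ψ : Bool → ℝ → ℝ) (a : Bool) (t : ℝ) : (datO (addS I ν τ ψ) P O).pot a t =
      (datO I P O).pot a t + (srcP ν τ a t + ψ a t) := by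
  unfold Dat.pot
  show _ + _ + (NUH0.slO O a t + (I.B a t + (srcP ν τ a t + ψ a t))) =
    _ + _ + (NUH0.slO O a t + I.B a t) + _
  rw [← add_assoc (NUH0.slO O a t), ← add_assoc]
  rfl

end NUSea.PLX.H0

end
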