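import Pool.Agent.PLX.PB.ObDef

/-!
# The factor of one extra row on the constituents of the objects, port PLX (cutoffs per species)

* `LnR ν t`: `t` is the real part of a constituent of an object: `L` (`-5/4 l`), `St`
  (`-1/2 l`, `-3/2 l`), `S` (`-(5/4 + ν') l`, `-(9/4 + ν') l`), satellites of `Sv`, `Svv` (`3/4 l`), spread `ν`;
* `spP`: a plus row `rwC x`, `|Re x| ≤ l / 2 - δ`, every height: `≤ cD δ`;
* `spM`: a minus row `1 / rwC y`, `|Re y| + ν l + δ ≤ 3/4 l`, every height: `≤ cD δ`;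
* `SpL G ν g`: the factor `g` is bounded by `G` on the constituents; `SpL.mul`, `SpL.mono`;
* `parts_LnR`, `cons_LnR`: the real parts of the constituents;
* `ob1c_row`, `objWc_row`: the weights of the objects with the factor `g` in the one body data.
-/

set_option autoImplicit false

noncomputable section

open Complex

namespace SPR.PLX

open NUP1 NUO NUGC.PLX PBO.PLX

theorem pi_eq : 8 * l = Real.pi := by unfold l; ring

theorem sin_up (z : ℂ) : ‖sin z‖ ≤ Real.cosh z.im := by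
  have hc := Real.cosh_pos z.im
  refine (sq_le_sq₀ (norm_nonneg _) hc.le).1 ?_
  have h := NUMF.norm_sin_sq z.re z.im
  have e : (z.re : ℂ) + z.im * I = z := re_add_im z
  rw [e] at h
  rw [h, Real.cosh_two_mul, Real.sinh_sq]
  have := Real.neg_one_le_cos (2 * z.re)
  clear * - this
  linarith

theorem prod_le_pow {L : List ℂ} {f : ℂ → ℝ} {c : ℝ} (hc : 1 ≤ c) (h0 : ∀ x ∈ L, 0 ≤ f x)
    (h : ∀ x ∈ L, f x ≤ c) {n : ℕ} (hn : L.length ≤ n) : (L.map f).prod ≤ c ^ n := by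
  have key : 0 ≤ (L.map f).prod ∧ (L.map f).prod ≤ c ^ L.length := by
    clear hn
    induction L with
    | nil => simp
    | cons x L ih =>
      obtain ⟨i0, i1⟩ := ih (fun y hy => h0 y (by simp [hy])) fun y hy => h y (by simp [hy])
      have a0 := h0 x (by simp)
      have a1 := h x (by simp)
      rw [List.map_cons, List.prod_cons, List.length_cons, pow_succ]
      refine ⟨mul_nonneg a0 i0, ?_⟩
      calc f x * (L.map f).prod ≤ c * c ^ L.length := mul_le_mul a1 i1 i0 (by linarith)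
        _ = _ := mul_comm _ _
  exact key.2.trans (pow_le_pow_right₀ hc hn)

/-! ### sines at distance `δ` from the zeros -/

/-- bound of a row factor at distance `δ` from its poles -/
def cD (δ : ℝ) : ℝ := (Real.sin δ ^ 2)⁻¹

theorem sin_pos' {δ : ℝ} (h0 : 0 < δ) (h1 : δ ≤ 4 * l) : 0 < Real.sin δ := by
  have hl := l_pos
  have hpi := pi_eq
  exact Real.sin_pos_of_pos_of_lt_pi h0 (by linarith)

theorem one_le_cD {δ : ℝ} (h0 : 0 < δ) (h1 : δ ≤ 4 * l) : 1 ≤ cD δ := by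
  unfold cD
  have h2 := sin_pos' h0 h1
  have h3 := Real.sin_le_one δ
  exact (one_le_inv₀ (by positivity)).2 (by (clear * - h3 h2; nlinarith))

theorem cD_anti {δ δ' : ℝ} (h0 : 0 < δ) (h : δ ≤ δ') (h1 : δ' ≤ 4 * l) : cD δ' ≤ cD δ := by
  have hl := l_pos
  have hpi := pi_eq
  have h2 := sin_pos' h0 (h.trans h1)
  have h3 : Real.sin δ ≤ Real.sin δ' :=
    Real.sin_le_sin_of_le_of_le_pi_div_two (by linarith) (by linarith) h
  unfold cD
  clear * - h2 h3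
  gcongr

theorem abs_sin_ge' {δ x : ℝ} (h0 : 0 < δ) (h1 : δ ≤ |x|) (h2 : |x| ≤ 8 * l - δ) :
    Real.sin δ ≤ |Real.sin x| := by
  have hl := l_pos
  have hpi := pi_eq
  have e : |Real.sin x| = Real.sin |x| := by
    rw [Real.abs_sin_eq_sin_abs_of_abs_le_pi]
    linarith
  rw [e]
  rcases le_total |x| (4 * l) with h | h
  · exact Real.sin_le_sin_of_le_of_le_pi_div_two (by linarith) (by linarith) h1
  · rw [← Real.sin_pi_sub |x|]
    exact Real.sin_le_sin_of_le_of_le_pi_div_two (by (clear * - h0 hl hpi; linarith)) (by linarith) (by linarith)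

theorem sin_dn' {δ : ℝ} {z : ℂ} (h0 : 0 < δ) (h1 : δ ≤ |z.re|) (h2 : |z.re| ≤ 8 * l - δ) :
    Real.sin δ * Real.cosh z.im ≤ ‖sin z‖ := by
  refine le_trans ?_ (Bd.le_norm_sin z)
  exact mul_le_mul_of_nonneg_right (abs_sin_ge' h0 h1 h2) (Real.cosh_pos _).le

/-- a plus row at distance `δ` from its poles -/
theorem rwC_leD {δ : ℝ} {x u : ℂ} (h0 : 0 < δ) (hδ : δ ≤ 4 * l) (h1 : δ ≤ |u.re - x.re|)
    (h2 : |u.re - x.re| ≤ 8 * l - δ) (h3 : δ ≤ |u.re - x.re - 2 * l|)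
    (h4 : |u.re - x.re - 2 * l| ≤ 8 * l - δ) : PBO.rwC x u ≤ cD δ := by
  have hs := sin_pos' h0 hδ
  have e1 : (u - x).re = u.re - x.re := sub_re _ _
  have e2 : (u - x - 2 * l).re = u.re - x.re - 2 * l := by simp
  have i1 : (u - x - 2 * l).im = (u - x).im := by simp
  have i2 : (u - x + 3 * l).im = (u - x).im := by simp
  have a1 := sin_up (u - x + 3 * l)
  have a2 := sin_dn' (z := u - x) h0 (by rw [e1]; exact h1) (by rw [e1]; exact h2)
  have a3 := sin_dn' (z := u - x - 2 * l) h0 (by rw [e2]; exact h3) (by rw [e2]; exact h4)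
  rw [i2] at a1
  rw [i1] at a3
  have hc := Real.cosh_pos (u - x).im
  unfold PBO.rwC cD
  have e : (Real.sin δ ^ 2)⁻¹ = Real.cosh (u - x).im ^ 2 /
      ((Real.sin δ * Real.cosh (u - x).im) * (Real.sin δ * Real.cosh (u - x).im)) := by
    field_simp
  rw [e]
  clear * - a1 hs a2 a3
  gcongr

/-- a minus row at distance `δ` from its pole -/
theorem rwC_inv_leD {δ : ℝ} {x u : ℂ} (h0 : 0 < δ) (hδ : δ ≤ 4 * l)
    (h1 : δ ≤ |u.re - x.re + 3 * l|) (h2 : |u.re - x.re + 3 * l| ≤ 8 * l - δ) :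
    (PBO.rwC x u)⁻¹ ≤ cD δ := by
  have hs := sin_pos' h0 hδ
  have e1 : (u - x + 3 * l).re = u.re - x.re + 3 * l := by simp
  have i1 : (u - x - 2 * l).im = (u - x).im := by simp
  have i2 : (u - x + 3 * l).im = (u - x).im := by simp
  have a1 := sin_up (u - x)
  have a2 := sin_up (u - x - 2 * l)
  have a3 := sin_dn' (z := u - x + 3 * l) h0 (by rw [e1]; exact h1) (by rw [e1]; exact h2)
  rw [i1] at a2
  rw [i2] at a3
  have hc := Real.cosh_pos (u - x).im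
  unfold PBO.rwC cD
  rw [inv_div]
  have e : (Real.sin δ ^ 2)⁻¹ = Real.cosh (u - x).im * Real.cosh (u - x).im /
      (Real.sin δ * Real.cosh (u - x).im) ^ 2 := by
    field_simp
  rw [e]
  clear * - a1 a2 hs a3
  gcongr

/-! ### the lines of the constituents -/

/-- the real parts of the constituents of the objects, spread `ν` -/
def LnR (ν t : ℝ) : Prop :=
  (-((9 / 4 + ν) * l) ≤ t ∧ t ≤ -(9 / 4 * l)) ∨ (-((5 / 4 + ν) * l) ≤ t ∧ t ≤ -(5 / 4 * l)) ∨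
    t = -(1 / 2 * l) ∨ t = -(3 / 2 * l) ∨ ((3 / 4 - ν) * l ≤ t ∧ t ≤ (3 / 4 + ν) * l)

theorem LnR.mono {ν ν' t : ℝ} (h : LnR ν t) (hν : ν ≤ ν') : LnR ν' t := by
  have hl := l_pos
  rcases h with h | h | h | h | h
  · exact Or.inl ⟨by (clear * - h hν hl; nlinarith), h.2⟩
  · exact Or.inr (Or.inl ⟨by (clear * - h hν hl; nlinarith), h.2⟩)
  · exact Or.inr (Or.inr (Or.inl h))
  · exact Or.inr (Or.inr (Or.inr (Or.inl h)))
  · exact Or.inr (Or.inr (Or.inr (Or.inr ⟨by (clear * - h hν hl; nlinarith), by nlinarith⟩)))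

/-- **a plus row on the constituents**, `|Re x| ≤ l / 2 - δ`, every height -/
theorem spP {ν δ : ℝ} {x u : ℂ} (h0 : 0 < δ) (hν0 : 0 ≤ ν) (hν : ν ≤ 1 / 10)
    (hx : |x.re| ≤ l / 2 - δ) (hu : LnR ν u.re) : PBO.rwC x u ≤ cD δ := by
  have hl := l_pos
  obtain ⟨x1, x2⟩ := abs_le.1 hx
  have hδ : δ ≤ l / 2 := by (clear * - x1 x2; linarith [abs_nonneg x.re])
  have hνl : ν * l ≤ 1 / 10 * l := mul_le_mul_of_nonneg_right hν hl.le
  have hν0l : 0 ≤ ν * l := mul_nonneg hν0 hl.le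
  rcases hu with ⟨a, b⟩ | ⟨a, b⟩ | a | a | ⟨a, b⟩
  · refine rwC_leD h0 (by (clear * - h0 x1 x2; linarith)) ?_ ?_ ?_ ?_ <;> rw [abs_of_neg (by (clear * - h0 x1 x2 b; linarith))] <;> (clear * - h0 x1 x2 b hνl a; linarith)
  · refine rwC_leD h0 (by linarith) ?_ ?_ ?_ ?_ <;> rw [abs_of_neg (by (clear * - h0 x1 x2 b; linarith))] <;> (clear * - h0 x1 x2 b hνl a; linarith)
  · refine rwC_leD h0 (by (clear * - h0 x1 x2; linarith)) ?_ ?_ ?_ ?_ <;> rw [abs_of_neg (by (clear * - h0 x1 a x2; linarith))] <;> (clear * - x1 a h0 x2; linarith)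
  · refine rwC_leD h0 (by linarith) ?_ ?_ ?_ ?_ <;> rw [abs_of_neg (by (clear * - h0 x1 x2 a; linarith))] <;> (clear * - h0 x1 x2 a; linarith)
  · refine rwC_leD h0 (by linarith) ?_ ?_ ?_ ?_
    · rw [abs_of_pos (by (clear * - h0 x1 x2 hνl a; linarith))]
      clear * - h0 x1 x2 hνl a
      linarith
    · rw [abs_of_pos (by (clear * - h0 x1 x2 hνl a; linarith))]
      clear * - h0 x1 x2 hνl b
      linarith
    · rw [abs_of_neg (by linarith)]
      clear * - h0 x1 x2 hνl b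
      linarith
    · rw [abs_of_neg (by (clear * - h0 x1 x2 hνl b; linarith))]
      clear * - h0 x1 x2 hνl a
      linarith

/-- **a minus row on the constituents**, `|Re y| + ν l + δ ≤ 3/4 l`, every height -/
theorem spM {ν δ : ℝ} {y u : ℂ} (h0 : 0 < δ) (hν0 : 0 ≤ ν)
    (hy : |y.re| + ν * l + δ ≤ 3 / 4 * l) (hu : LnR ν u.re) : (PBO.rwC y u)⁻¹ ≤ cD δ := by
  have hl := l_pos
  have hy0 := abs_nonneg y.re
  have y1 := neg_abs_le y.re
  have y2 := le_abs_self y.re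
  have hν0l : 0 ≤ ν * l := mul_nonneg hν0 hl.le
  rcases hu with ⟨a, b⟩ | ⟨a, b⟩ | a | a | ⟨a, b⟩ <;>
    refine rwC_inv_leD h0 (by (clear * - h0 hy hy0 hν0l; linarith)) ?_ ?_ <;> rw [abs_of_pos (by (clear * - h0 hy y2 a hy0 hν0l; linarith))] <;> linarith

/-! ### factors bounded on the constituents -/

/-- the factor `g` is between `0` and `G` on the constituents of the objects -/
def SpL (G ν : ℝ) (g : Bool → ℂ → ℝ) : Prop := ∀ a (u : ℂ), LnR ν u.re → 0 ≤ g a u ∧ g a u ≤ G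

theorem SpL.mul {G G' ν : ℝ} {g g' : Bool → ℂ → ℝ} (h : SpL G ν g) (h' : SpL G' ν g') :
    SpL (G * G') ν fun a u => g a u * g' a u := fun a u hu => by
  obtain ⟨a1, a2⟩ := h a u hu
  obtain ⟨b1, b2⟩ := h' a u hu
  exact ⟨mul_nonneg a1 b1, mul_le_mul a2 b2 b1 (a1.trans a2)⟩

theorem SpL.mono {G G' ν ν' : ℝ} {g : Bool → ℂ → ℝ} (h : SpL G ν' g) (hG : G ≤ G') (hν : ν ≤ ν') :
    SpL G' ν g := fun a u hu =>
  ⟨(h a u (hu.mono hν)).1, (h a u (hu.mono hν)).2.trans hG⟩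

theorem SpL.plus {ν δ : ℝ} {x : ℂ} (h0 : 0 < δ) (hν0 : 0 ≤ ν) (hν : ν ≤ 1 / 10)
    (hx : |x.re| ≤ l / 2 - δ) : SpL (cD δ) ν fun _ u => PBO.rwC x u := fun _ u hu =>
  ⟨PBO.rwC_nonneg x u, spP h0 hν0 hν hx hu⟩

theorem SpL.minus {ν δ : ℝ} {y : ℂ} (h0 : 0 < δ) (hν0 : 0 ≤ ν)
    (hy : |y.re| + ν * l + δ ≤ 3 / 4 * l) : SpL (cD δ) ν fun _ u => (PBO.rwC y u)⁻¹ := fun _ u hu =>
  ⟨inv_nonneg.2 (PBO.rwC_nonneg y u), spM h0 hν0 hy hu⟩

/-- at most `n` plus rows -/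
theorem SpL.list {ν G : ℝ} {L : List ℂ} {f : ℂ → ℂ → ℝ} {n : ℕ} (hn : L.length ≤ n) (hG : 1 ≤ G)
    (h : ∀ x ∈ L, SpL G ν fun _ u => f x u) :
    SpL (G ^ n) ν fun _ u => (L.map fun x => f x u).prod := fun a u hu => by
  refine ⟨?_, prod_le_pow hG (fun x hx => (h x hx a u hu).1) (fun x hx => (h x hx a u hu).2) hn⟩
  refine List.prod_nonneg fun c hc => ?_
  obtain ⟨x, hx, rfl⟩ := List.mem_map.1 hc
  exact (h x hx a u hu).1

/-- legs: `Lg = thZ` -/
theorem SpL.leg {ν δ : ℝ} {z : ℂ} (h0 : 0 < δ) (hν0 : 0 ≤ ν) (hν : ν ≤ 1 / 10)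
    (z1 : -(5 / 4 * l) + ν * l + δ ≤ z.re) (z2 : z.re ≤ 15 / 4 * l - ν * l - δ) :
    SpL (Real.sin δ)⁻¹ ν fun _ u => thZ z u := fun _ u hu => by
  have hl := l_pos
  have hν0l : 0 ≤ ν * l := mul_nonneg hν0 hl.le
  have hνl : ν * l ≤ 1 / 10 * l := mul_le_mul_of_nonneg_right hν hl.le
  refine ⟨thZ_nonneg z u, ?_⟩
  change thZ z u ≤ (Real.sin δ)⁻¹
  have hδ : δ ≤ 4 * l := by (clear * - z1 z2 hl hν0l; linarith)
  have hs := sin_pos' h0 hδ
  have e1 : (z - u + 2 * l).re = z.re - u.re + 2 * l := by simp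
  have i1 : (z - u + 2 * l).im = (z - u).im := by simp
  have i2 : (z - u - 3 * l).im = (z - u).im := by simp
  have h3 : δ ≤ z.re - u.re + 2 * l ∧ z.re - u.re + 2 * l ≤ 8 * l - δ := by
    rcases hu with ⟨a, b⟩ | ⟨a, b⟩ | a | a | ⟨a, b⟩ <;> constructor <;> linarith
  have a1 := sin_up (z - u - 3 * l)
  have a2 := sin_dn' (z := z - u + 2 * l) h0 (by rw [e1, abs_of_pos (by (clear * - h0 h3; linarith [h3.1]))]; exact h3.1)
    (by rw [e1, abs_of_pos (by (clear * - h0 h3; linarith [h3.1]))]; exact h3.2)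
  rw [i2] at a1
  rw [i1] at a2
  have hc := Real.cosh_pos (z - u).im
  unfold thZ
  have e : (Real.sin δ)⁻¹ = Real.cosh (z - u).im / (Real.sin δ * Real.cosh (z - u).im) := by
    field_simp
  rw [e]
  gcongr

/-! ### the constituents of the objects -/

theorem posL_re (t : ℝ) : (posL (9 / 4) t).re = -(5 / 4 * l) := by
  simp only [posL, vl, add_re, ofReal_re, mul_re, I_re, ofReal_im, I_im]
  ring

theorem posT_re (t : ℝ) : (posT t).re = -(1 / 2 * l) := by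
  simp [posT, vl]

theorem posT_re' (t : ℝ) : (posT t - l).re = -(3 / 2 * l) := by
  rw [sub_re, posT_re, ofReal_re]
  ring

theorem posS_re (e t : ℝ) : (posS e t).re = -((1 + e) * l) := by
  simp [posS, vl]

theorem posS_re' (e t : ℝ) : (posS e t - l).re = -((2 + e) * l) := by
  rw [sub_re, posS_re, ofReal_re]
  ring

theorem posS_re2 (e t : ℝ) : (posS e t + 2 * l).re = (1 - e) * l := by
  rw [add_re, posS_re]
  simp
  ring

theorem posV_re {e ρ : ℝ} (hρ : 0 ≤ ρ) (t a : ℝ) : |(posV e ρ t a).re - (1 - e) * l| ≤ ρ := by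
  have h1 : (posV e ρ t a).re - (1 - e) * l = (ρ * Complex.exp (2 * Real.pi * a * I)).re := by
    unfold posV
    rw [add_re, posS_re2]
    ring
  rw [h1]
  refine (abs_re_le_norm _).trans ?_
  rw [norm_mul, norm_real, Real.norm_eq_abs, abs_of_nonneg hρ,
    show (2 * Real.pi * a * I : ℂ) = ((2 * Real.pi * a : ℝ) : ℂ) * I by push_cast; ring,
    norm_exp_ofReal_mul_I, mul_one]

variable {ν e ρ : ℝ}

theorem LnR_L (t : ℝ) (hν : 0 ≤ ν) : LnR ν (posL (9 / 4) t).re := by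
  have hl := l_pos
  rw [posL_re]
  exact Or.inr (Or.inl ⟨by (clear * - hν hl; nlinarith), le_rfl⟩)

theorem LnR_T (t : ℝ) : LnR ν (posT t).re := by
  rw [posT_re]
  exact Or.inr (Or.inr (Or.inl rfl))

theorem LnR_T' (t : ℝ) : LnR ν (posT t - l).re := by
  rw [posT_re']
  exact Or.inr (Or.inr (Or.inr (Or.inl rfl)))

theorem LnR_S (t : ℝ) (h1 : 1 / 4 ≤ e) (h2 : e ≤ 1 / 4 + ν) : LnR ν (posS e t).re := by
  have hl := l_pos
  rw [posS_re]
  exact Or.inr (Or.inl ⟨by (clear * - h2 hl; nlinarith), by (clear * - h1 hl; nlinarith)⟩)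

theorem LnR_S' (t : ℝ) (h1 : 1 / 4 ≤ e) (h2 : e ≤ 1 / 4 + ν) : LnR ν (posS e t - l).re := by
  have hl := l_pos
  rw [posS_re']
  exact Or.inl ⟨by (clear * - h2 hl; nlinarith), by (clear * - h1 hl; nlinarith)⟩

theorem LnR_V (t a : ℝ) (h1 : 1 / 4 ≤ e) (h2 : e ≤ 1 / 4 + ν / 2) (hρ : 0 ≤ ρ)
    (hρ' : ρ ≤ ν / 2 * l) : LnR ν (posV e ρ t a).re := by
  have hl := l_pos
  obtain ⟨h3, h4⟩ := abs_le.1 (posV_re (e := e) hρ t a)
  exact Or.inr (Or.inr (Or.inr (Or.inr ⟨by (clear * - hρ' h3 h2 hl; nlinarith), by (clear * - hρ hρ' h4 h1 hl; nlinarith)⟩)))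

theorem LnR_V2 (t : ℝ) (hν : 0 ≤ ν) (h1 : 1 / 4 ≤ e) (h2 : e ≤ 1 / 4 + ν) :
    LnR ν (posS e t + 2 * l).re := by
  have hl := l_pos
  rw [posS_re2]
  exact Or.inr (Or.inr (Or.inr (Or.inr ⟨by (clear * - h2 hl; nlinarith), by (clear * - hν hl h1; nlinarith)⟩)))

/-- the quanta of one object are on the lines: `parts` -/
theorem parts_LnR (hν : 0 ≤ ν) (h1 : 1 / 4 ≤ e) (h2 : e ≤ 1 / 4 + ν / 2) (hρ : 0 ≤ ρ)
    (hρ' : ρ ≤ ν / 2 * l) (x : Xo) : ∀ c ∈ parts (9 / 4) e ρ x, LnR ν c.2.2.re ∧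
      (c.2.1 = true → LnR ν (c.2.2 - l).re) := by
  have h2' : e ≤ 1 / 4 + ν := by linarith
  intro c hc
  unfold parts at hc
  rcases h : NUO.kd x with _ | _ | _ | _ | _ <;> rw [h] at hc <;>
    simp only [List.mem_cons, List.not_mem_nil, or_false] at hc
  · subst hc
    exact ⟨LnR_L _ hν, fun h => by simp at h⟩
  · subst hc
    exact ⟨LnR_T _, fun _ => LnR_T' _⟩
  · subst hc
    exact ⟨LnR_S _ h1 h2', fun _ => LnR_S' _ h1 h2'⟩
  · rcases hc with rfl | rfl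
    · exact ⟨LnR_S _ h1 h2', fun _ => LnR_S' _ h1 h2'⟩
    · exact ⟨LnR_V _ _ h1 h2 hρ hρ', fun h => by simp at h⟩
  · rcases hc with rfl | rfl | rfl
    · exact ⟨LnR_S _ h1 h2', fun _ => LnR_S' _ h1 h2'⟩
    · exact ⟨LnR_V2 _ hν h1 h2', fun h => by simp at h⟩
    · exact ⟨LnR_V2 _ hν h1 h2', fun h => by simp at h⟩

/-! ### the weights of the objects with one more factor -/

/-- **weight of one object with the further factor `g`** -/
theorem ob1c_row {B B' : OB} {G : ℝ} {g : Bool → ℂ → ℝ} (hB : B.Nn) (hG : 1 ≤ G)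
    (hR : ∀ a u, B'.R a u = B.R a u * g a u) (hφ : B'.φ = B.φ) (hφ0 : B'.φ0 = B.φ0)
    (hg : SpL G ν g) (hν : 0 ≤ ν) (h1 : 1 / 4 ≤ e) (h2 : e ≤ 1 / 4 + ν / 2) (hρ : 0 ≤ ρ)
    (hρ' : ρ ≤ ν / 2 * l) (x : Xo) :
    ob1c B' (9 / 4) e ρ x ≤ G ^ 4 * ob1c B (9 / 4) e ρ x := by
  have h2' : e ≤ 1 / 4 + ν := by linarith
  have haS : 0 ≤ aS := aS_pos.le
  have hG0 : 0 ≤ G := by linarith
  have g1 : G ≤ G ^ 4 := le_self_pow₀ hG (by norm_num)
  have g2 : G * G ≤ G ^ 4 := by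
    rw [← sq]; exact pow_le_pow_right₀ hG (by norm_num)
  have g3 : G * G * G ≤ G ^ 4 := by
    rw [← sq, ← pow_succ]; exact pow_le_pow_right₀ hG (by norm_num)
  have key : ∀ a u, LnR ν u.re → B'.R a u ≤ G * B.R a u := fun a u hu => by
    rw [hR, mul_comm]
    exact mul_le_mul_of_nonneg_right (hg a u hu).2 (hB a u)
  have key0 : ∀ a u, LnR ν u.re → 0 ≤ B'.R a u := fun a u hu => by
    rw [hR]
    exact mul_nonneg (hB a u) (hg a u hu).1
  have hoS0 : ∀ a w, 0 ≤ oSc B a w := by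
    intro a w
    unfold oSc
    have h1 := hB a w
    have h2 := hB a (w - l)
    clear * - haS h1 h2
    positivity
  have hoS : ∀ a, oSc B' a (posS e (ht x)) ≤ G * G * oSc B a (posS e (ht x)) := by
    intro a
    have k1 := key a _ (LnR_S (ht x) h1 h2')
    have k2 := key a _ (LnR_S' (ht x) h1 h2')
    have k3 := key0 a _ (LnR_S' (ht x) h1 h2')
    have b1 := hB a (posS e (ht x))
    unfold oSc
    rw [hφ0]
    calc aS * (B'.R a (posS e (ht x)) * B'.R a (posS e (ht x) - l)) * ‖B.φ0 a (posS e (ht x))‖ ≤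
        aS * ((G * B.R a (posS e (ht x))) * (G * B.R a (posS e (ht x) - l))) *
          ‖B.φ0 a (posS e (ht x))‖ := by (clear * - k1 k2 k3 hG b1 haS; gcongr)
      _ = _ := by ring
  have hoS' : ∀ a, 0 ≤ oSc B' a (posS e (ht x)) := by
    intro a
    have k1 := key0 a _ (LnR_S (ht x) h1 h2')
    have k3 := key0 a _ (LnR_S' (ht x) h1 h2')
    unfold oSc
    clear * - haS k1 k3
    positivity
  unfold ob1c
  rcases h : NUO.kd x with _ | _ | _ | _ | _
  · have k1 := key (sp x) _ (LnR_L (ht x) hν)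
    have b1 := hB (sp x) (posL (9 / 4) (ht x))
    simp only
    rw [hφ]
    calc (2 * Real.pi)⁻¹ * (B'.R (sp x) (posL (9 / 4) (ht x)) * ‖B.φ (sp x) (posL (9 / 4) (ht x))‖) ≤
        (2 * Real.pi)⁻¹ * ((G ^ 4 * B.R (sp x) (posL (9 / 4) (ht x))) *
          ‖B.φ (sp x) (posL (9 / 4) (ht x))‖) := by
          have := k1.trans (mul_le_mul_of_nonneg_right g1 b1)
          gcongr
      _ = _ := by ring
  · have k1 := key (sp x) _ (LnR_T (ht x))
    have k2 := key (sp x) _ (LnR_T' (ht x))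
    have k3 := key0 (sp x) _ (LnR_T' (ν := ν) (ht x))
    have b1 := hB (sp x) (posT (ht x))
    have b2 := hB (sp x) (posT (ht x) - l)
    simp only
    rw [hφ, hφ0]
    calc aS * (B'.R (sp x) (posT (ht x)) * B'.R (sp x) (posT (ht x) - l)) *
        ‖B.φ (sp x) (posT (ht x)) * B.φ (sp x) (posT (ht x) - l) - B.φ0 (sp x) (posT (ht x))‖ ≤
        aS * ((G * B.R (sp x) (posT (ht x))) * (G * B.R (sp x) (posT (ht x) - l))) *
        ‖B.φ (sp x) (posT (ht x)) * B.φ (sp x) (posT (ht x) - l) - B.φ0 (sp x) (posT (ht x))‖ := by (clear * - k1 k2 k3 hG b1 haS; gcongr)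
      _ = (G * G) * (aS * (B.R (sp x) (posT (ht x)) * B.R (sp x) (posT (ht x) - l)) *
        ‖B.φ (sp x) (posT (ht x)) * B.φ (sp x) (posT (ht x) - l) - B.φ0 (sp x) (posT (ht x))‖) := by ring
      _ ≤ _ := mul_le_mul_of_nonneg_right g2 (by positivity)
  · exact (hoS _).trans (mul_le_mul_of_nonneg_right g2 (hoS0 _ _))
  · have k1 := key (!sp x) _ (LnR_V (ht x) (NUO.an x) h1 h2 hρ hρ')
    have k2 := key0 (!sp x) _ (LnR_V (ht x) (NUO.an x) h1 h2 hρ hρ')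
    have b1 := hB (!sp x) (posV e ρ (ht x) (NUO.an x))
    have b2 := hoS (sp x)
    have b3 := hoS' (sp x)
    have b4 := hoS0 (sp x) (posS e (ht x))
    simp only
    rw [hφ]
    calc oSc B' (sp x) (posS e (ht x)) * (ρ * (B'.R (!sp x) (posV e ρ (ht x) (NUO.an x)) *
        ‖B.φ (!sp x) (posV e ρ (ht x) (NUO.an x))‖) *
        ‖Kn.cz false true (posV e ρ (ht x) (NUO.an x) - posS e (ht x))‖) ≤
        (G * G * oSc B (sp x) (posS e (ht x))) *
        (ρ * ((G * B.R (!sp x) (posV e ρ (ht x) (NUO.an x))) *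
        ‖B.φ (!sp x) (posV e ρ (ht x) (NUO.an x))‖) *
        ‖Kn.cz false true (posV e ρ (ht x) (NUO.an x) - posS e (ht x))‖) := by (clear * - b2 k1 hρ k2 hG b4; gcongr)
      _ = (G * G * G) * (oSc B (sp x) (posS e (ht x)) *
        (ρ * (B.R (!sp x) (posV e ρ (ht x) (NUO.an x)) *
        ‖B.φ (!sp x) (posV e ρ (ht x) (NUO.an x))‖) *
        ‖Kn.cz false true (posV e ρ (ht x) (NUO.an x) - posS e (ht x))‖)) := by ring
      _ ≤ _ := mul_le_mul_of_nonneg_right g3 (by positivity)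
  · have k1 := key (!sp x) _ (LnR_V2 (ht x) hν h1 h2')
    have k2 := key0 (!sp x) _ (LnR_V2 (ht x) hν h1 h2')
    have b1 := hB (!sp x) (posS e (ht x) + 2 * l)
    have b2 := hoS (sp x)
    have b3 := hoS' (sp x)
    have b4 := hoS0 (sp x) (posS e (ht x))
    simp only
    rw [hφ]
    calc oSc B' (sp x) (posS e (ht x)) * (4 * Real.cos l ^ 2 *
        (B'.R (!sp x) (posS e (ht x) + 2 * l) * ‖B.φ (!sp x) (posS e (ht x) + 2 * l)‖ /
          Real.sin (5 * l) ^ 2) ^ 2) ≤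
        (G * G * oSc B (sp x) (posS e (ht x))) * (4 * Real.cos l ^ 2 *
        ((G * B.R (!sp x) (posS e (ht x) + 2 * l)) * ‖B.φ (!sp x) (posS e (ht x) + 2 * l)‖ /
          Real.sin (5 * l) ^ 2) ^ 2) := by (clear * - b2 k2 k1 hG b4; gcongr)
      _ = G ^ 4 * (oSc B (sp x) (posS e (ht x)) * (4 * Real.cos l ^ 2 *
        (B.R (!sp x) (posS e (ht x) + 2 * l) * ‖B.φ (!sp x) (posS e (ht x) + 2 * l)‖ /
          Real.sin (5 * l) ^ 2) ^ 2)) := by ring
      _ ≤ _ := le_rfl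

/-- the parameters of the objects: `jL = 9/4`, `e = 1/4`, spread and radii below `ν / 2` -/
structure PNu (ν : ℝ) (P : Par) : Prop where
  ν0 : 0 ≤ ν
  jL : P.jL = 9 / 4
  e : P.e = 1 / 4
  d0 : ∀ r, 0 ≤ P.d r
  d1 : ∀ r, P.d r ≤ ν / 2
  r0 : ∀ r t, 0 ≤ P.rad r t
  r1 : ∀ r t, P.rad r t ≤ ν / 2 * l

theorem PNu.ei {P : Par} (h : PNu ν P) {r : ℕ} (O : Fin r → Xo) (i : Fin r) :
    1 / 4 ≤ ei P O i ∧ ei P O i ≤ 1 / 4 + ν / 2 := by
  unfold NUO.ei
  rw [h.e]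
  have h1 : (rk O i : ℝ) ≤ r := by
    have h2 : rk O i ≤ r := by
      unfold rk
      refine (Finset.card_le_univ _).trans ?_
      simp
    exact_mod_cast h2
  have h2 : (rk O i : ℝ) / r ≤ 1 := div_le_one_of_le₀ h1 (Nat.cast_nonneg _)
  have h3 : 0 ≤ (rk O i : ℝ) / r := by positivity
  have h4 := h.d0 r
  have h5 := h.d1 r
  constructor
  · have := mul_nonneg h4 h3
    linarith
  · have := mul_le_of_le_one_right h4 h2
    clear * - h5 this
    linarith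

/-- the constituents of the object `i` are on the lines -/
theorem cons_LnR {P : Par} (h : PNu ν P) {r : ℕ} (O : Fin r → Xo) (i : Fin r) :
    ∀ c ∈ cons P O i, LnR ν c.2.2.re ∧ (c.2.1 = true → LnR ν (c.2.2 - l).re) := by
  unfold cons
  rw [h.jL]
  exact parts_LnR h.ν0 (h.ei O i).1 (h.ei O i).2 (h.r0 _ _) (h.r1 _ _) (O i)

/-- **weight of the objects with the further factor `g`** -/
theorem objWc_row {B B' : OB} {P : Par} {G : ℝ} {g : Bool → ℂ → ℝ} (h : PNu ν P) (hB : B.Nn)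
    (hB' : B'.Nn) (hG : 1 ≤ G) (hR : ∀ a u, B'.R a u = B.R a u * g a u) (hφ : B'.φ = B.φ)
    (hφ0 : B'.φ0 = B.φ0) (hg : SpL G ν g) {r : ℕ} (O : Fin r → Xo) :
    objWc B' P O ≤ (G ^ 4) ^ r * objWc B P O := by
  unfold objWc
  rw [← mul_assoc]
  refine mul_le_mul_of_nonneg_right ?_ ?_
  · calc ∏ i, ob1c B' P.jL (NUO.ei P O i) (rr P O i) (O i) ≤
        ∏ i : Fin r, (G ^ 4 * ob1c B P.jL (NUO.ei P O i) (rr P O i) (O i)) := by
          refine Finset.prod_le_prod (fun i _ => ob1c_nonneg hB' _ _ (h.r0 _ _) _) fun i _ => ?_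
          rw [h.jL]
          exact ob1c_row hB hG hR hφ hφ0 hg h.ν0 (h.ei O i).1 (h.ei O i).2 (h.r0 _ _) (h.r1 _ _)
            (O i)
      _ = _ := by rw [Finset.prod_mul_distrib, Finset.prod_const, Finset.card_univ,
          Fintype.card_fin]
  · refine Finset.prod_nonneg fun i _ => Finset.prod_nonneg fun j _ => ?_
    split_ifs
    · exact pairN_nonneg _ _ _ _
    · exact zero_le_one

end SPR.PLX

end
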