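import Pool.Agent.PLX.IST.Src0

/-!
# Sources (definitions)

Everything of this file is in `PLX/IST/Src0`.
-/
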